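import Pool.Agent.W602.GT.Loc
import Pool.Agent.H159R3.Exp.Laur

/-!
Statements about the forms `f (dlog b₁ ∧ … ∧ dlog b_w) ^ m` which are logarithmic at all prime
divisors of a function field, and regular at those which have a centre on an affine variety.
-/

set_option autoImplicit false

open MvPolynomial FF Pool.Agent.W603.LV

namespace Pool.Agent.N754.LG

open Pool.Agent.H159R3.Exp (Laur)
open Pool.Agent.W602.GT (Divisorial DerReg DerLog LogGeneralType)

section defs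

variable {k K : Type} [Field k] [Field K] [Algebra k K]

/-- the value of the form `dlog b₁ ∧ … ∧ dlog b_w` on the frame `E` -/
def rho {w : ℕ} (b : Fin w → K) (E : Fin w → Derivation k K K) : K :=
  (Matrix.of fun a j => E a (b j) / b j).det

/-- the form `f (dlog b₁ ∧ … ∧ dlog b_w) ^ m` is logarithmic at all prime divisors, and regular at
those in `C` -/
def InR {w : ℕ} (b : Fin w → K) (C : Place k K → Prop) (m : ℕ) (f : K) : Prop :=
  (∀ P : Place k K, Divisorial w P → ∀ E : Fin w → Derivation k K K, (∀ a, DerLog P (E a)) →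
    P.Reg (f * rho b E ^ m)) ∧
  (∀ P : Place k K, Divisorial w P → C P → ∀ E : Fin w → Derivation k K K,
    (∀ a, DerReg P (E a)) → P.Reg (f * rho b E ^ m))

/-- `D` is the basis of the derivations which is dual to `dlog b₁, …, dlog b_w` -/
def Dual {w : ℕ} (b : Fin w → K) (D : Fin w → Derivation k K K) : Prop :=
  (∀ i j, D i (b j) = if i = j then b j else 0) ∧
  ∀ (E : Derivation k K K) (x : K), E x = ∑ j, E (b j) / b j * D j x

end defs

/-- dual bases exist -/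
def DU : Prop := ∀ (k K : Type) [Field k] [Field K] [Algebra k K] [CharZero k] (w : ℕ)
  (b : Fin w → K), Algebra.trdeg k K = w → AlgebraicIndependent k b →
  ∃ D : Fin w → Derivation k K K, Dual b D

/-- the forms form an integrally closed ring -/
def RA1 : Prop := ∀ (k K : Type) [Field k] [Field K] [Algebra k K] [CharZero k] (w : ℕ)
  (b : Fin w → K) (C : Place k K → Prop), (∀ j, b j ≠ 0) → (∀ P, C P → ∀ j, P.ord (b j) = 0) →
  (∀ m m' f, InR b C m f → m ≤ m' → InR b C m' f) ∧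
  (∀ m f g, InR b C m f → InR b C m g → InR b C m (f + g)) ∧
  (∀ m m' f g, InR b C m f → InR b C m' g → InR b C (m + m') (f * g)) ∧
  (∀ c : k, InR b C 0 (algebraMap k K c)) ∧
  ∀ (m : ℕ) (q : Polynomial K) (f : K), q.Monic → (∀ i, InR b C m (q.coeff i)) →
    q.eval f = 0 → InR b C m f

/-- derivatives of forms, and of units -/
def RA2 : Prop := ∀ (k K : Type) [Field k] [Field K] [Algebra k K] [CharZero k] (w : ℕ)
  (b : Fin w → K) (C : Place k K → Prop) (D : Fin w → Derivation k K K), Dual b D →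
  (∀ j, b j ≠ 0) → (∀ P, C P → ∀ j, P.ord (b j) = 0) →
  (∀ m f j, InR b C m f → InR b C (2 * m + 1) (D j f)) ∧
  ∀ x j, x ≠ 0 → (∀ P, C P → P.ord x = 0) → InR b C 1 (D j x / x)

/-- enough forms give logarithmic general type -/
def RA3 : Prop := ∀ (k K : Type) [Field k] [Field K] [Algebra k K] [CharZero k] (w : ℕ)
  (b : Fin w → K) (C : Place k K → Prop) (D : Fin w → Derivation k K K), Dual b D →
  (∀ j, b j ≠ 0) → (∀ P, C P → ∀ j, P.ord (b j) = 0) → Algebra.trdeg k K = w →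
  ∀ f : Fin w → K, AlgebraicIndependent k f → (∃ m, ∀ i, InR b C m (f i)) →
  LogGeneralType k K w fun P => ¬ C P

/-- frames at a place -/
def LF : Prop := ∀ (k K : Type) [Field k] [Field K] [Algebra k K] [CharZero k] (w : ℕ)
  (b : Fin w → K) (D : Fin w → Derivation k K K), Dual b D → (∀ j, b j ≠ 0) →
  ∀ P : Place k K,
  (∀ E : Fin w → Derivation k K K, (∀ a, DerReg P (E a)) → rho b E ≠ 0 →
    ∃ E' : Fin w → Derivation k K K, (∀ a, DerLog P (E' a)) ∧ rho b E' ≠ 0 ∧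
      P.ord (rho b E') ≤ P.ord (rho b E) + 1) ∧
  (∀ E : Fin w → Derivation k K K, (∀ a, DerReg P (E a)) → (∀ j, P.ord (b j) = 0) →
    rho b E ≠ 0 → P.ord (rho b E) = 0 → ∀ j, DerReg P (D j)) ∧
  ∀ E : Fin w → Derivation k K K, (∀ a, DerLog P (E a)) → ∀ h j,
    Ge P (P.ord h) (D j h * rho b E)

/-- a field generated by units with logarithmic derivatives in an algebraically closed differential
subfield is purely transcendental over it -/
def ST : Prop := ∀ (k K : Type) [Field k] [Field K] [Algebra k K] [CharZero k]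
  (κ : IntermediateField k K), (∀ x : K, IsAlgebraic κ x → x ∈ κ) → ∀ (w : ℕ)
  (D : Fin w → Derivation k K K),
  (∀ E : Derivation k K K, ∃ c : Fin w → K, ∀ x, E x = ∑ j, c j * D j x) →
  (∀ j, ∀ x ∈ κ, D j x ∈ κ) → ∀ (m : ℕ) (u : Fin m → K), (∀ i, u i ≠ 0) →
  (∀ j i, D j (u i) / u i ∈ κ) → IntermediateField.adjoin k (Set.range u) = ⊤ →
  ∃ (r : ℕ) (b : Fin r → K), (∀ i, ∃ a : Fin m → ℤ, b i = ∏ l, u l ^ a l) ∧
    AlgebraicIndependent κ b ∧
    (∀ l, ∃ c ∈ κ, ∃ e : Fin r → ℤ, u l = c * ∏ i, b i ^ e i) ∧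
    ∀ i, ∃ ε : Fin w → K, (∀ j, ε j ∈ κ) ∧ (∀ x ∈ κ, ∑ j, ε j * D j x = 0) ∧
      ∀ i', ∑ j, ε j * D j (b i') = if i = i' then b i' else 0

/-- a common zero of two coprime polynomials -/
def CO : Prop := ∀ (κ L : Type) [Field κ] [Field L] [Algebra κ L] (r : ℕ) (x : Fin r → L)
  (p q : MvPolynomial (Fin r) κ), p ≠ 0 → q ≠ 0 → (∀ d, d ∣ p → d ∣ q → IsUnit d) →
  aeval x p = 0 → aeval x q = 0 → ∀ i, ¬ AlgebraicIndependent κ fun j : {j : Fin r // j ≠ i} => x j.1

/-- the residue field at a place with a transversal regular derivation -/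
def RES : Prop := ∀ (k K : Type) [Field k] [Field K] [Algebra k K] [CharZero k] (P : Place k K)
  (A : Subring K), (∀ a ∈ A, P.Reg a) → (∀ x : K, ∃ g ∈ A, ∃ h ∈ A, h ≠ 0 ∧ x = g / h) →
  ∀ E : Derivation k K K, DerReg P E → (∀ a ∈ A, E a ∈ A) → ∀ π : K, P.ord π = 1 → E π ≠ 0 →
  P.ord (E π) = 0 → ∀ t : K, P.Reg t →
  ∃ g ∈ A, ∃ h ∈ A, h ≠ 0 ∧ P.ord h = 0 ∧ Ge P 1 (t - g / h)

/-- a horizontal prime divisor with regular vector fields has a centre of codimension one -/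
def FP : Prop := ∀ (k K : Type) [Field k] [Field K] [Algebra k K] [CharZero k] (w : ℕ),
  Algebra.trdeg k K = w → ∀ (κ : IntermediateField k K) (r : ℕ) (b : Fin r → K),
  AlgebraicIndependent κ b → IntermediateField.adjoin κ (Set.range b) = ⊤ →
  ∀ P : Place k K, Divisorial w P → (∀ x ∈ κ, x ≠ 0 → P.ord x = 0) → (∀ i, P.ord (b i) = 0) →
  ∀ E : Fin r → Derivation k K K, (∀ i, ∀ x ∈ κ, E i x = 0) →
  (∀ i j, E i (b j) = if i = j then b j else 0) → (∀ i, DerReg P (E i)) →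
  (∃ i π, P.ord π = 1 ∧ E i π ≠ 0 ∧ P.ord (E i π) = 0) →
  ∀ p q : MvPolynomial (Fin r) κ, p ≠ 0 → q ≠ 0 → (∀ d, d ∣ p → d ∣ q → IsUnit d) →
  ¬ (0 < P.ord (aeval b p) ∧ 0 < P.ord (aeval b q))

/-- the Laurent curve through a point with Laurent coordinates -/
def LC : Prop := ∀ (k K : Type) [Field k] [Field K] [Algebra k K] [CharZero k]
  (κ : IntermediateField k K) (r : ℕ) (b : Fin r → K), AlgebraicIndependent κ b →
  ∀ (n : ℕ) (y : Fin n → K),
  (∀ j, ∃ (β : Fin r → ℕ) (p : MvPolynomial (Fin r) κ), y j * ∏ i, b i ^ β i = aeval b p) →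
  (∃ j, ∃ c ∈ κ, c ≠ 0 ∧ ∃ (e : Fin r → ℤ) (i0 : Fin r), e i0 ≠ 0 ∧
    y j = c * ∏ i, b i ^ e i) →
  ∃ v : K → Fin n → K, (∀ j, Laur fun t => v t j) ∧ v 1 = y ∧
    (∀ Q : MvPolynomial (Fin n) k, aeval y Q = 0 → ∀ t, t ≠ 0 → aeval (v t) Q = 0) ∧
    ∃ j, v 2 j ≠ v 1 j

end Pool.Agent.N754.LG
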