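import Pool.Agent.N754.LG.Stm

/-!
Statement: automorphisms of algebraically closed fields.
-/

set_option autoImplicit false

namespace Pool.Agent.N754.LG

/-- endomorphisms of an algebraically closed field which move a given element -/
def AUT : Prop := ∀ (k₀ Ω : Type) [Field k₀] [Field Ω] [Algebra k₀ Ω] [CharZero k₀]
  [IsAlgClosed Ω] (x : Ω), x ∉ Set.range (algebraMap k₀ Ω) → ∃ σ : Ω →ₐ[k₀] Ω, σ x ≠ x

end Pool.Agent.N754.LG
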