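import Mathlib
import Pool.Agent.N754.LG.Stm

/-!
Interpolation with eigenvectors of a derivation, and estimates.
-/

set_option autoImplicit false
set_option linter.unusedSectionVars false

open FF Pool.Agent.W603.LV

namespace Pool.Agent.N754.LG

variable {k K : Type} [Field k] [Field K] [Algebra k K] [CharZero k]

/-- iterates of a derivation on a sum of eigenvectors -/
theorem iter_sum_eig {ι : Type} [Fintype ι] (D : Derivation k K K) (z : K) (hz : D z = 0)
    (lam : ι → k) (T : ι → K) (hT : ∀ i, D (T i) = z * (algebraMap k K (lam i) * T i)) (n : ℕ) :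
    D^[n] (∑ j, T j) = z ^ n * ∑ j, algebraMap k K (lam j) ^ n * T j := by
  induction n with
  | zero => simp
  | succ n ih =>
    rw [Function.iterate_succ_apply', ih, D.leibniz, D.leibniz_pow, hz, smul_zero, nsmul_zero,
      smul_zero, add_zero, map_sum, smul_eq_mul, Finset.mul_sum, Finset.mul_sum]
    refine Finset.sum_congr rfl fun j _ => ?_
    have h1 : D (algebraMap k K (lam j) ^ n) = 0 := by
      rw [D.leibniz_pow, D.map_algebraMap, smul_zero, nsmul_zero]
    rw [D.leibniz, h1, smul_zero, add_zero, hT]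
    simp only [smul_eq_mul]
    ring

/-- interpolation -/
theorem interp {ι : Type} [Fintype ι] (D : Derivation k K K) (z : K) (hz : D z = 0)
    (lam : ι → k) (hlam : Function.Injective lam) (T : ι → K)
    (hT : ∀ i, D (T i) = z * (algebraMap k K (lam i) * T i)) (i0 : ι) :
    ∃ a : ℕ → k, z ^ (Fintype.card ι - 1) * T i0 = ∑ i ∈ Finset.range (Fintype.card ι),
      algebraMap k K (a i) * z ^ (Fintype.card ι - 1 - i) * D^[i] (∑ j, T j) := by
  classical
  let v : ι → k := lam
  have hv : Function.Injective v := hlam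
  let ℓ : Polynomial k := Lagrange.basis Finset.univ v i0
  have hℓ : ∀ j, ℓ.eval (v j) = if j = i0 then 1 else 0 := by
    intro j
    by_cases h : j = i0
    · rw [if_pos h, h]
      exact Lagrange.eval_basis_self hv.injOn (Finset.mem_univ _)
    · rw [if_neg h]
      exact Lagrange.eval_basis_of_ne (fun h' => h h'.symm) (Finset.mem_univ _)
  have hcard : 0 < Fintype.card ι := Fintype.card_pos_iff.2 ⟨i0⟩
  have hdeg : ℓ.natDegree < Fintype.card ι := by
    have h1 : ℓ.natDegree = Fintype.card ι - 1 :=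
      Lagrange.natDegree_basis hv.injOn (Finset.mem_univ i0)
    omega
  refine ⟨ℓ.coeff, ?_⟩
  have h1 : ∀ i ∈ Finset.range (Fintype.card ι),
      algebraMap k K (ℓ.coeff i) * z ^ (Fintype.card ι - 1 - i) * D^[i] (∑ j, T j) =
      z ^ (Fintype.card ι - 1) * ∑ j, algebraMap k K (ℓ.coeff i * v j ^ i) * T j := by
    intro i hi
    rw [Finset.mem_range] at hi
    rw [iter_sum_eig D z hz lam T hT, Finset.mul_sum, Finset.mul_sum, Finset.mul_sum]
    refine Finset.sum_congr rfl fun j _ => ?_
    have h2 : z ^ (Fintype.card ι - 1) = z ^ (Fintype.card ι - 1 - i) * z ^ i := by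
      rw [← pow_add]
      congr 1
      omega
    rw [h2, map_mul, map_pow]
    ring
  rw [Finset.sum_congr rfl h1, ← Finset.mul_sum, Finset.sum_comm]
  congr 1
  have h2 : ∀ j, ∑ i ∈ Finset.range (Fintype.card ι), algebraMap k K (ℓ.coeff i * v j ^ i) * T j =
      if j = i0 then T j else 0 := by
    intro j
    rw [← Finset.sum_mul, ← map_sum, ← Polynomial.eval_eq_sum_range' hdeg, hℓ]
    split_ifs
    · rw [map_one, one_mul]
    · rw [map_zero, zero_mul]
  rw [Finset.sum_congr rfl fun j _ => h2 j, Finset.sum_ite_eq' Finset.univ i0 T,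
    if_pos (Finset.mem_univ _)]

/-- the estimate -/
theorem ge_term {P : Place k K} {ι : Type} [Fintype ι] (D : Derivation k K K) (z : K)
    (hz : D z = 0) (lam : ι → k) (hlam : Function.Injective lam) (T : ι → K)
    (hT : ∀ i, D (T i) = z * (algebraMap k K (lam i) * T i)) (i0 : ι) (N δ ζ : ℤ) (hδ : 0 ≤ δ) (hζ : 0 ≤ ζ)
    (hD : ∀ h, Ge P N h → Ge P (N - δ) (D h)) (hD' : ∀ m h, Ge P m h → 0 < δ → Ge P (m - δ) (D h))
    (hzP : Ge P (-ζ) z) (hQ : Ge P N (∑ j, T j)) :
    Ge P (N - (Fintype.card ι - 1 : ℕ) * (δ + ζ)) (z ^ (Fintype.card ι - 1) * T i0) := by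
  obtain ⟨a, ha⟩ := interp D z hz lam hlam T hT i0
  rw [ha]
  have hit : ∀ i : ℕ, Ge P (N - i * δ) (D^[i] (∑ j, T j)) := by
    intro i
    induction i with
    | zero => simpa using hQ
    | succ i ih =>
      rw [Function.iterate_succ_apply']
      rcases hδ.eq_or_lt with h0 | h0
      · rw [← h0, mul_zero, sub_zero] at ih
        have h1 := hD _ ih
        rw [← h0] at h1 ⊢
        rwa [mul_zero]
      · have h1 := hD' _ _ ih h0
        have h2 : N - ((i + 1 : ℕ) : ℤ) * δ = N - i * δ - δ := by push_cast; ring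
        rw [h2]
        exact h1
  refine Ge.sum _ _ fun i hi => ?_
  rw [Finset.mem_range] at hi
  have h1 := ((Ge.const (P := P) (a i)).mul (hzP.pow (Fintype.card ι - 1 - i))).mul (hit i)
  refine h1.mono ?_
  have h2 : ((Fintype.card ι - 1 - i : ℕ) : ℤ) + i = (Fintype.card ι - 1 : ℕ) := by omega
  have h3 : (0 : ℤ) ≤ (Fintype.card ι - 1 - i : ℕ) := Int.natCast_nonneg _
  have h4 : (0 : ℤ) ≤ i := Int.natCast_nonneg _
  have h5 : (0 : ℤ) ≤ ((Fintype.card ι - 1 - i : ℕ) : ℤ) * δ := mul_nonneg h3 hδ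
  have h6 : (0 : ℤ) ≤ (i : ℤ) * ζ := mul_nonneg h4 hζ
  rw [← h2]
  linarith

end Pool.Agent.N754.LG
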