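import Mathlib
import Pool.Agent.N754.LG.Stm

/-!
The field of quotients of the ring of logarithmic forms.
-/

set_option autoImplicit false
set_option linter.unusedSectionVars false

open MvPolynomial FF Pool.Agent.W603.LV

namespace Pool.Agent.N754.LG

open Pool.Agent.H159R3.Exp (Laur)
open Pool.Agent.W602.GT (Divisorial DerReg DerLog LogGeneralType)

/-- a transcendence basis in a set of generators -/
theorem exists_basis_in {k K : Type} [Field k] [Field K] [Algebra k K] (s : Set K)
    (hs : IntermediateField.adjoin k s = ⊤) {w : ℕ} (hw : Algebra.trdeg k K = w) :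
    ∃ b : Fin w → K, (∀ j, b j ∈ s) ∧ AlgebraicIndependent k b := by
  classical
  have halg : Algebra.IsAlgebraic (Algebra.adjoin k s) K := by
    refine ⟨fun x => ?_⟩
    have hx : x ∈ IntermediateField.adjoin k s := by rw [hs]; trivial
    obtain ⟨r, hr, t, ht, hx⟩ := IntermediateField.mem_adjoin_iff_div.1 hx
    by_cases h0 : t = 0
    · rw [hx, h0, div_zero]
      exact isAlgebraic_zero
    · refine ⟨Polynomial.C ⟨t, ht⟩ * Polynomial.X - Polynomial.C ⟨r, hr⟩, ?_, ?_⟩
      · intro h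
        have h1 := congrArg (fun p => Polynomial.coeff p 1) h
        simp only [Polynomial.coeff_sub, Polynomial.coeff_C_mul, Polynomial.coeff_X_one, mul_one,
          Polynomial.coeff_C_succ, sub_zero, Polynomial.coeff_zero] at h1
        exact h0 (congrArg Subtype.val h1)
      · rw [map_sub, map_mul, Polynomial.aeval_C, Polynomial.aeval_X, Polynomial.aeval_C]
        show t * x - r = 0
        rw [hx, mul_div_cancel₀ _ h0, sub_self]
  obtain ⟨t, hts, ht⟩ := exists_isTranscendenceBasis_subset (R := k) s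
  have hcard : Cardinal.mk t = w := by rw [ht.cardinalMk_eq_trdeg, hw]
  obtain ⟨e⟩ := Cardinal.mk_eq_nat_iff.1 hcard
  refine ⟨fun j => (e.symm j : K), fun j => hts (e.symm j).2, ?_⟩
  exact ht.1.comp e.symm e.symm.injective

section ring

variable {k K : Type} [Field k] [Field K] [Algebra k K] [CharZero k] {w : ℕ} {b : Fin w → K}
  {C : Place k K → Prop}

/-- the ring of logarithmic forms -/
def ringR (hRA : RA1) (hb : ∀ j, b j ≠ 0) (hC : ∀ P, C P → ∀ j, P.ord (b j) = 0) :
    Subalgebra k K where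
  carrier := {f | ∃ m, InR b C m f}
  mul_mem' := by
    rintro f g ⟨m, hf⟩ ⟨m', hg⟩
    exact ⟨m + m', (hRA k K w b C hb hC).2.2.1 m m' f g hf hg⟩
  add_mem' := by
    rintro f g ⟨m, hf⟩ ⟨m', hg⟩
    exact ⟨max m m', (hRA k K w b C hb hC).2.1 _ f g
      ((hRA k K w b C hb hC).1 _ _ _ hf (le_max_left _ _))
      ((hRA k K w b C hb hC).1 _ _ _ hg (le_max_right _ _))⟩
  algebraMap_mem' := fun c => ⟨0, (hRA k K w b C hb hC).2.2.2.1 c⟩

variable (hRA : RA1) (hb : ∀ j, b j ≠ 0) (hC : ∀ P, C P → ∀ j, P.ord (b j) = 0)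

theorem mem_ringR {f : K} : f ∈ ringR hRA hb hC ↔ ∃ m, InR b C m f := Iff.rfl

/-- the field of quotients -/
def fldR : IntermediateField k K := IntermediateField.adjoin k (ringR hRA hb hC : Set K)

theorem mem_fldR {x : K} : x ∈ fldR hRA hb hC ↔
    ∃ f ∈ ringR hRA hb hC, ∃ g ∈ ringR hRA hb hC, g ≠ 0 ∧ x = f / g := by
  unfold fldR
  rw [IntermediateField.mem_adjoin_iff_div, Algebra.adjoin_eq]
  constructor
  · rintro ⟨r, hr, s, hs, h⟩
    by_cases h0 : s = 0
    · refine ⟨0, zero_mem _, 1, one_mem _, one_ne_zero, ?_⟩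
      rw [h, h0, div_zero, zero_div]
    · exact ⟨r, hr, s, hs, h0, h⟩
  · rintro ⟨r, hr, s, hs, -, h⟩
    exact ⟨r, hr, s, hs, h⟩

theorem ringR_le {f : K} (hf : f ∈ ringR hRA hb hC) : f ∈ fldR hRA hb hC :=
  IntermediateField.subset_adjoin _ _ hf

/-- a common denominator -/
theorem exists_den {ι : Type} [Finite ι] (x : ι → K) (hx : ∀ i, x i ∈ fldR hRA hb hC) :
    ∃ z ∈ ringR hRA hb hC, z ≠ 0 ∧ ∀ i, z * x i ∈ ringR hRA hb hC := by
  classical
  have := Fintype.ofFinite ι
  have h1 := fun i => (mem_fldR hRA hb hC).1 (hx i)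
  choose f hf g hg hg0 hfg using h1
  refine ⟨∏ i, g i, Subalgebra.prod_mem _ fun i _ => hg i,
    Finset.prod_ne_zero_iff.2 fun i _ => hg0 i, fun i => ?_⟩
  have h2 : (∏ i, g i) * x i = (∏ j ∈ Finset.univ.erase i, g j) * f i := by
    rw [← Finset.mul_prod_erase Finset.univ g (Finset.mem_univ i), hfg i]
    have := hg0 i
    field_simp
  rw [h2]
  exact mul_mem (Subalgebra.prod_mem _ fun j _ => hg j) (hf i)

/-- a common weight -/
theorem exists_weight {ι : Type} [Finite ι] (x : ι → K) (hx : ∀ i, x i ∈ ringR hRA hb hC) :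
    ∃ m, ∀ i, InR b C m (x i) := by
  classical
  have := Fintype.ofFinite ι
  choose m hm using hx
  exact ⟨Finset.univ.sup m, fun i => (hRA k K w b C hb hC).1 _ _ _ (hm i)
    (Finset.le_sup (Finset.mem_univ i))⟩

/-- the ring is integrally closed -/
theorem ringR_int {x : K} (hx : IsIntegral (ringR hRA hb hC) x) : x ∈ ringR hRA hb hC := by
  obtain ⟨q, hq, hqx⟩ := hx
  let q' : Polynomial K := q.map (algebraMap (ringR hRA hb hC) K)
  obtain ⟨m, hm⟩ := exists_weight hRA hb hC (fun i : Fin (q.natDegree + 1) =>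
    ((q.coeff i : ringR hRA hb hC) : K)) fun i => (q.coeff i).2
  refine ⟨m, (hRA k K w b C hb hC).2.2.2.2 m q' x (hq.map _) (fun i => ?_) ?_⟩
  · rw [Polynomial.coeff_map]
    by_cases hi : i < q.natDegree + 1
    · exact hm ⟨i, hi⟩
    · rw [Polynomial.coeff_eq_zero_of_natDegree_lt (by omega), map_zero]
      have h0 := (hRA k K w b C hb hC).2.2.2.1 0
      rw [map_zero] at h0
      exact (hRA k K w b C hb hC).1 _ _ _ h0 (Nat.zero_le _)
  · rw [Polynomial.eval_map]
    exact hqx

/-- the field of quotients is algebraically closed in `K` -/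
theorem fldR_closed {x : K} (hx : IsAlgebraic (fldR hRA hb hC) x) : x ∈ fldR hRA hb hC := by
  obtain ⟨q, hq0, hq⟩ := hx
  obtain ⟨z, hz, hz0, hzq⟩ := exists_den hRA hb hC (fun i : Fin (q.natDegree + 1) =>
    ((q.coeff i : fldR hRA hb hC) : K)) fun i => (q.coeff i).2
  have halg : IsAlgebraic (ringR hRA hb hC) x := by
    refine ⟨∑ i : Fin (q.natDegree + 1), Polynomial.monomial (i : ℕ)
      (⟨z * ((q.coeff i : fldR hRA hb hC) : K), hzq i⟩ : ringR hRA hb hC), ?_, ?_⟩
    · intro h
      have h1 := congrArg (fun p => Polynomial.coeff p q.natDegree) h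
      simp only [Polynomial.finsetSum_coeff, Polynomial.coeff_monomial, Polynomial.coeff_zero] at h1
      rw [Finset.sum_eq_single (Fin.last q.natDegree)] at h1
      · rw [if_pos (Fin.val_last _)] at h1
        have h2 : z * ((q.coeff q.natDegree : fldR hRA hb hC) : K) = 0 := congrArg Subtype.val h1
        rcases mul_eq_zero.1 h2 with h3 | h3
        · exact hz0 h3
        · exact hq0 (Polynomial.leadingCoeff_eq_zero.1 (Subtype.ext h3))
      · intro i _ hi
        rw [if_neg]
        intro h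
        exact hi (Fin.ext h)
      · intro h
        exact absurd (Finset.mem_univ _) h
    · rw [map_sum]
      have h1 : ∀ i : Fin (q.natDegree + 1), Polynomial.aeval x (Polynomial.monomial (i : ℕ)
          (⟨z * ((q.coeff i : fldR hRA hb hC) : K), hzq i⟩ : ringR hRA hb hC)) =
          z * (((q.coeff i : fldR hRA hb hC) : K) * x ^ (i : ℕ)) := by
        intro i
        rw [Polynomial.aeval_monomial, ← mul_assoc]
        rfl
      rw [Finset.sum_congr rfl fun i _ => h1 i, ← Finset.mul_sum]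
      have h2 : ∑ i : Fin (q.natDegree + 1), ((q.coeff i : fldR hRA hb hC) : K) * x ^ (i : ℕ) =
          Polynomial.aeval x q := by
        rw [Polynomial.aeval_eq_sum_range, ← Fin.sum_univ_eq_sum_range
          (fun i => q.coeff i • x ^ i)]
        rfl
      rw [h2, hq, mul_zero]
  obtain ⟨y, hy0, hy⟩ := halg.exists_integral_multiple
  have h1 : (y : K) * x ∈ ringR hRA hb hC := ringR_int hRA hb hC hy
  have h2 : (y : K) ≠ 0 := fun h => hy0 (Subtype.ext h)
  refine (mem_fldR hRA hb hC).2 ⟨_, h1, _, y.2, h2, ?_⟩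
  rw [mul_div_cancel_left₀ _ h2]

/-- the derivations of the dual basis preserve the field of quotients -/
theorem fldR_der (hRA2 : RA2) {D : Fin w → Derivation k K K} (hD : Dual b D) (j : Fin w) {x : K}
    (hx : x ∈ fldR hRA hb hC) : D j x ∈ fldR hRA hb hC := by
  obtain ⟨f, ⟨m, hf⟩, g, ⟨m', hg⟩, hg0, rfl⟩ := (mem_fldR hRA hb hC).1 hx
  have h1 : D j f ∈ ringR hRA hb hC := ⟨_, (hRA2 k K w b C D hD hb hC).1 m f j hf⟩
  have h2 : D j g ∈ ringR hRA hb hC := ⟨_, (hRA2 k K w b C D hD hb hC).1 m' g j hg⟩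
  have h3 : D j (f / g) = (D j f * g - f * D j g) / (g * g) := by
    rw [div_eq_mul_inv, Derivation.leibniz, Derivation.leibniz_inv]
    simp only [smul_eq_mul]
    field_simp
    ring
  rw [h3]
  exact (mem_fldR hRA hb hC).2 ⟨_, sub_mem (mul_mem h1 ⟨m', hg⟩) (mul_mem ⟨m, hf⟩ h2), _,
    mul_mem ⟨m', hg⟩ ⟨m', hg⟩, mul_ne_zero hg0 hg0, rfl⟩

/-- if the field of quotients is everything, there are enough forms -/
theorem logGT_of_top (hRA3 : RA3) {D : Fin w → Derivation k K K} (hD : Dual b D)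
    (hw : Algebra.trdeg k K = w) (htop : fldR hRA hb hC = ⊤) :
    LogGeneralType k K w fun P => ¬ C P := by
  obtain ⟨f, hf, hfi⟩ := exists_basis_in (ringR hRA hb hC : Set K) htop hw
  exact hRA3 k K w b C D hD hb hC hw f hfi (exists_weight hRA hb hC f hf)

end ring

end Pool.Agent.N754.LG
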