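import Mathlib
import Pool.Agent.N754.LG.Ring
import Pool.Agent.N754.LG.Est

/-!
Regular functions have Laurent coordinates.
-/

set_option autoImplicit false
set_option linter.unusedSectionVars false

open MvPolynomial FF Pool.Agent.W603.LV

namespace Pool.Agent.N754.LG

open Pool.Agent.W602.GT (Divisorial DerReg DerLog LogGeneralType)

section

variable {k K : Type} [Field k] [Field K] [Algebra k K] [CharZero k]

theorem ge_of_reg_mul_pow {P : Place k K} {f ρ : K} {m : ℕ} (hρ : ρ ≠ 0)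
    (h : P.Reg (f * ρ ^ m)) : Ge P (-(m * P.ord ρ)) f := by
  have h1 : Ge P (-(m * P.ord ρ) + m * P.ord ρ) (ρ ^ m * f) := by
    rw [neg_add_cancel, mul_comm]
    exact h
  refine Ge.of_mul' (pow_ne_zero _ hρ) ?_ h1
  rw [P.ord_pow]

theorem reg_mul_pow_of_ge {P : Place k K} {f ρ : K} {m : ℕ} {N : ℤ} (hρ : ρ ≠ 0)
    (h : Ge P N f) (hN : 0 ≤ N + m * P.ord ρ) : P.Reg (f * ρ ^ m) := by
  have h1 : Ge P (m * P.ord ρ) (ρ ^ m) := Or.inr (by rw [P.ord_pow])
  exact (h.mul h1).mono hN

/-- a reduced fraction -/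
theorem exists_frac (κ : IntermediateField k K) {r : ℕ} {b : Fin r → K}
    (hb : AlgebraicIndependent κ b) (htop : IntermediateField.adjoin κ (Set.range b) = ⊤)
    (x : K) : ∃ p q : MvPolynomial (Fin r) κ, q ≠ 0 ∧ (∀ d, d ∣ p → d ∣ q → IsUnit d) ∧
      x = aeval b p / aeval b q := by
  let A := MvPolynomial (Fin r) κ
  let : Algebra A K := (aeval b : A →ₐ[κ] K).toRingHom.toAlgebra
  have hinj : Function.Injective (algebraMap A K) := hb
  have hfaith : FaithfulSMul A K := (faithfulSMul_iff_algebraMap_injective A K).2 hinj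
  have hfrac : IsFractionRing A K := by
    refine IsFractionRing.of_field A K fun z => ?_
    have hz : z ∈ IntermediateField.adjoin κ (Set.range b) := by rw [htop]; trivial
    obtain ⟨s, hs, t, ht, h⟩ := IntermediateField.mem_adjoin_iff_div.1 hz
    rw [Algebra.adjoin_range_eq_range_aeval] at hs ht
    obtain ⟨s', rfl⟩ := hs
    obtain ⟨t', rfl⟩ := ht
    exact ⟨s', t', h⟩
  obtain ⟨p, q, hpq, hx⟩ := IsFractionRing.exists_reduced_fraction A x
  refine ⟨p, q, nonZeroDivisors.ne_zero q.2, fun d h1 h2 => hpq h1 h2, ?_⟩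
  rw [← hx, IsFractionRing.mk'_eq_div]
  rfl

/-- a linear form separating finitely many exponents -/
theorem exists_sep {r : ℕ} (S : Finset (Fin r →₀ ℕ)) :
    ∃ c : Fin r → k, ∀ β ∈ S, ∀ γ ∈ S, ∑ i, c i * (β i : k) = ∑ i, c i * (γ i : k) → β = γ := by
  classical
  let L : (Fin r →₀ ℕ) × (Fin r →₀ ℕ) → MvPolynomial (Fin r) k := fun x =>
    ∑ i, MvPolynomial.C ((x.1 i : k) - (x.2 i : k)) * X i
  have hL : ∀ x, x.1 ≠ x.2 → L x ≠ 0 := by
    rintro ⟨β, γ⟩ hx h0
    apply hx
    ext i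
    have h1 : eval (Pi.single i 1 : Fin r → k) (L (β, γ)) = 0 := by rw [h0, map_zero]
    simp only [L, map_sum, map_mul, eval_C, eval_X] at h1
    rw [Finset.sum_eq_single i] at h1
    · rw [Pi.single_eq_same, mul_one, sub_eq_zero] at h1
      exact_mod_cast h1
    · intro j _ hj
      rw [Pi.single_eq_of_ne hj, mul_zero]
    · intro h
      exact absurd (Finset.mem_univ i) h
  let T : Finset ((Fin r →₀ ℕ) × (Fin r →₀ ℕ)) := (S ×ˢ S).filter fun x => x.1 ≠ x.2
  have hprod : ∏ x ∈ T, L x ≠ 0 :=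
    Finset.prod_ne_zero_iff.2 fun x hx => hL x (Finset.mem_filter.1 hx).2
  obtain ⟨c, hc⟩ : ∃ c : Fin r → k, eval c (∏ x ∈ T, L x) ≠ 0 := by
    by_contra hcon
    push Not at hcon
    exact hprod (MvPolynomial.funext fun c => by rw [hcon c, map_zero])
  refine ⟨c, fun β hβ γ hγ h => ?_⟩
  by_contra hne
  rw [map_prod, Finset.prod_ne_zero_iff] at hc
  apply hc (β, γ) (Finset.mem_filter.2 ⟨Finset.mem_product.2 ⟨hβ, hγ⟩, hne⟩)
  simp only [L, map_sum, map_mul, eval_C, eval_X]
  have h1 : ∀ i, ((β i : k) - (γ i : k)) * c i = c i * (β i : k) - c i * (γ i : k) := fun i => by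
    ring
  rw [Finset.sum_congr rfl fun i _ => h1 i, Finset.sum_sub_distrib, h, sub_self]

/-- derivatives of monomials -/
theorem der_monomial (κ : IntermediateField k K) {r : ℕ} (b : Fin r → K)
    (E : Derivation k K K) (hE : ∀ x ∈ κ, E x = 0) (μ : Fin r → K)
    (hEb : ∀ i, E (b i) = μ i * b i) (β : Fin r →₀ ℕ) (c : κ) :
    E (aeval b (monomial β c)) = (∑ i, μ i * (β i : K)) * aeval b (monomial β c) := by
  classical
  rw [aeval_monomial, Finsupp.prod_fintype _ _ fun i => pow_zero _]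
  have h1 : algebraMap κ K c = (c : K) := rfl
  rw [h1, E.leibniz, hE _ c.2, smul_zero, add_zero]
  have h2 : ∀ s : Finset (Fin r), E (∏ i ∈ s, b i ^ β i) =
      (∑ i ∈ s, μ i * (β i : K)) * ∏ i ∈ s, b i ^ β i := by
    intro s
    induction s using Finset.induction_on with
    | empty => simp
    | insert i s hi ih =>
      rw [Finset.prod_insert hi, Finset.sum_insert hi, E.leibniz, ih, E.leibniz_pow, hEb]
      simp only [smul_eq_mul, nsmul_eq_mul]
      rcases Nat.eq_zero_or_pos (β i) with h0 | h0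
      · rw [h0]
        simp
      · have h3 : b i ^ β i = b i ^ (β i - 1) * b i := by
          rw [← pow_succ]
          congr 1
          omega
        rw [h3]
        ring
  rw [h2]
  simp only [smul_eq_mul]
  ring

end

end Pool.Agent.N754.LG
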