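import Mathlib
import Pool.Agent.N754.LG.Core

/-!
Regular functions have Laurent coordinates.
-/

set_option autoImplicit false
set_option linter.unusedSectionVars false

open MvPolynomial FF Pool.Agent.W603.LV

namespace Pool.Agent.N754.LG

open Pool.Agent.W602.GT (Divisorial DerReg DerLog LogGeneralType)

/-- the derivation `∑ g_j D_j` -/
noncomputable def cmb {k K : Type} [Field k] [Field K] [Algebra k K] {w : ℕ}
    (D : Fin w → Derivation k K K) (g : Fin w → K) : Derivation k K K := ∑ j, g j • D j

theorem cmb_apply {k K : Type} [Field k] [Field K] [Algebra k K] {w : ℕ}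
    (D : Fin w → Derivation k K K) (g : Fin w → K) (x : K) :
    cmb D g x = ∑ j, g j * D j x := by
  classical
  have h1 : ∀ s : Finset (Fin w), (∑ j ∈ s, g j • D j) x = ∑ j ∈ s, g j * D j x := by
    intro s
    induction s using Finset.induction_on with
    | empty => rw [Finset.sum_empty, Finset.sum_empty]; rfl
    | insert j s hj ih =>
      rw [Finset.sum_insert hj, Finset.sum_insert hj, Derivation.add_apply, ih]
      rfl
  exact h1 _

/-- **Regular functions have Laurent coordinates.** -/
theorem core {k K : Type} [Field k] [Field K] [Algebra k K] [CharZero k] (hRA : RA1) (hLF : LF)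
    (hFP : FP) {w : ℕ} (hw : Algebra.trdeg k K = w) {b0 : Fin w → K}
    {D : Fin w → Derivation k K K} (hD : Dual b0 D) {C : Place k K → Prop} (hb0 : ∀ j, b0 j ≠ 0)
    (hC : ∀ P, C P → ∀ j, P.ord (b0 j) = 0) {r : ℕ} {b : Fin r → K}
    (hbi : AlgebraicIndependent (fldR hRA hb0 hC) b)
    (htop : IntermediateField.adjoin (fldR hRA hb0 hC) (Set.range b) = ⊤)
    (hbC : ∀ P, C P → ∀ i, P.ord (b i) = 0) (ε : Fin r → Fin w → K)
    (hε : ∀ i j, ε i j ∈ fldR hRA hb0 hC)
    (hεκ : ∀ i, ∀ x ∈ fldR hRA hb0 hC, ∑ j, ε i j * D j x = 0)
    (hεb : ∀ i i', ∑ j, ε i j * D j (b i') = if i = i' then b i' else 0)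
    {x : K} (hx0 : x ≠ 0) (hxC : ∀ P, C P → P.Reg x) :
    ∃ (β : Fin r → ℕ) (p : MvPolynomial (Fin r) (fldR hRA hb0 hC)),
      x * ∏ i, b i ^ β i = aeval b p := by
  classical
  have hRA' := hRA k K w b0 C hb0 hC
  obtain ⟨hmono, -, hmul, hconst, -⟩ := hRA'
  have hone : ∀ m, InR b0 C m 1 := fun m => by
    have h1 := hconst 1
    rw [map_one] at h1
    exact hmono _ _ _ h1 (Nat.zero_le _)
  have hpow : ∀ m f (N : ℕ), InR b0 C m f → InR b0 C (N * m) (f ^ N) := by
    intro m f N hf
    induction N with
    | zero => rw [pow_zero, zero_mul]; exact hone 0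
    | succ N ih =>
      rw [pow_succ, Nat.succ_mul]
      exact hmul _ _ _ _ ih hf
  have hbne : ∀ i, b i ≠ 0 := fun i => hbi.ne_zero i
  -- the derivations
  let E : Fin r → Derivation k K K := fun i => cmb D (ε i)
  have hEκ : ∀ i, ∀ z ∈ fldR hRA hb0 hC, E i z = 0 := fun i z hz => by
    show cmb D (ε i) z = 0
    rw [cmb_apply]
    exact hεκ i z hz
  have hEb : ∀ i i', E i (b i') = if i = i' then b i' else 0 := fun i i' => by
    show cmb D (ε i) (b i') = _
    rw [cmb_apply]
    exact hεb i i'
  -- the fraction
  obtain ⟨p, q, hq0, hpq, hxpq⟩ := exists_frac (fldR hRA hb0 hC) hbi htop x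
  have hinj : ∀ Q : MvPolynomial (Fin r) (fldR hRA hb0 hC), aeval b Q = 0 → Q = 0 := fun Q hQ =>
    (injective_iff_map_eq_zero _).1 hbi Q hQ
  have hqb0 : aeval b q ≠ 0 := fun h => hq0 (hinj q h)
  have hpb0 : aeval b p ≠ 0 := by
    intro h
    rw [hxpq, h, zero_div] at hx0
    exact hx0 rfl
  have hp0 : p ≠ 0 := by
    rintro rfl
    exact hpb0 (map_zero _)
  -- denominators
  obtain ⟨z0, hz0R, hz00, hz0⟩ := exists_den hRA hb0 hC (fun β : q.support =>
    ((q.coeff β.1 : fldR hRA hb0 hC) : K)) fun β => (q.coeff β.1).2
  obtain ⟨z1, hz1R, hz10, hz1⟩ := exists_den hRA hb0 hC (fun a : Fin r × Fin w => ε a.1 a.2)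
    fun a => hε a.1 a.2
  obtain ⟨c, hc⟩ := exists_sep (k := k) q.support
  let g : Fin w → K := fun j => ∑ i, algebraMap k K (c i) * (z1 * ε i j)
  have hgR : ∀ j, g j ∈ ringR hRA hb0 hC := fun j =>
    Subalgebra.sum_mem _ fun i _ => mul_mem (Subalgebra.algebraMap_mem _ _) (hz1 (i, j))
  let s : ℕ := Fintype.card q.support - 1
  let t : q.support → K := fun β => z1 ^ s * (z0 * ((q.coeff β.1 : fldR hRA hb0 hC) : K))
  have htR : ∀ β, t β ∈ ringR hRA hb0 hC := fun β =>
    mul_mem (pow_mem hz1R _) (hz0 β)
  -- weights
  obtain ⟨mg, hmg⟩ := exists_weight hRA hb0 hC g hgR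
  obtain ⟨mt, hmt⟩ := exists_weight hRA hb0 hC t htR
  obtain ⟨mz, hmz⟩ := hz1R
  let m1 : ℕ := mg + mt + mz
  have hg1 : ∀ j, InR b0 C m1 (g j) := fun j => hmono _ _ _ (hmg j) (by omega)
  have ht1 : ∀ β, InR b0 C m1 (t β) := fun β => hmono _ _ _ (hmt β) (by omega)
  have hz11 : InR b0 C m1 z1 := hmono _ _ _ hmz (by omega)
  -- the terms
  let T : q.support → K := fun β => z0 * aeval b (monomial β.1 (q.coeff β.1))
  let QR : K := z0 * aeval b q
  have hQR0 : QR ≠ 0 := mul_ne_zero hz00 hqb0
  have hQT : QR = ∑ β, T β := by
    show z0 * aeval b q = _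
    conv_lhs => rw [q.as_sum]
    rw [map_sum, Finset.mul_sum, ← Finset.sum_coe_sort]
  let D' : Derivation k K K := cmb D g
  let lam : q.support → k := fun β => ∑ i, c i * (β.1 i : k)
  have hlam : Function.Injective lam := fun β γ h => Subtype.ext (hc _ β.2 _ γ.2 h)
  have hD'E : ∀ z, D' z = z1 * ∑ i, algebraMap k K (c i) * E i z := by
    intro z
    show cmb D g z = z1 * ∑ i, algebraMap k K (c i) * cmb D (ε i) z
    rw [cmb_apply, Finset.mul_sum]
    have h1 : ∀ j, g j * D j z = ∑ i, z1 * (algebraMap k K (c i) * (ε i j * D j z)) := by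
      intro j
      simp only [g]
      rw [Finset.sum_mul]
      refine Finset.sum_congr rfl fun i _ => ?_
      ring
    rw [Finset.sum_congr rfl fun j _ => h1 j, Finset.sum_comm]
    refine Finset.sum_congr rfl fun i _ => ?_
    rw [cmb_apply, Finset.mul_sum, Finset.mul_sum]
  have hz1κ : z1 ∈ fldR hRA hb0 hC := ringR_le hRA hb0 hC ⟨mz, hmz⟩
  have hz0κ : z0 ∈ fldR hRA hb0 hC := ringR_le hRA hb0 hC hz0R
  have hD'κ : ∀ z ∈ fldR hRA hb0 hC, D' z = 0 := by
    intro z hz
    rw [hD'E, Finset.sum_eq_zero fun i _ => by rw [hEκ i z hz, mul_zero], mul_zero]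
  have hD'z1 : D' z1 = 0 := hD'κ z1 hz1κ
  have hD'b : ∀ i, D' (b i) = z1 * algebraMap k K (c i) * b i := by
    intro i
    rw [hD'E, Finset.sum_eq_single i]
    · rw [hEb, if_pos rfl]
      ring
    · intro i' _ hi'
      rw [hEb, if_neg hi', mul_zero]
    · intro h
      exact absurd (Finset.mem_univ i) h
  have hD'T : ∀ β, D' (T β) = z1 * (algebraMap k K (lam β) * T β) := by
    intro β
    show D' (z0 * aeval b (monomial β.1 (q.coeff β.1))) = _
    rw [D'.leibniz, hD'κ z0 hz0κ, smul_zero, add_zero, der_monomial _ b D' hD'κ _ hD'b]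
    simp only [lam, T, smul_eq_mul]
    rw [map_sum]
    have h1 : ∀ i, z1 * algebraMap k K (c i) * (β.1 i : K) =
        z1 * algebraMap k K (c i * (β.1 i : k)) := fun i => by
      rw [map_mul, map_natCast]
      ring
    rw [Finset.sum_congr rfl fun i _ => h1 i, ← Finset.mul_sum]
    ring
  have hTt : ∀ β, z1 ^ s * T β = t β * ∏ i, b i ^ (β.1 i) := by
    intro β
    simp only [T, t]
    rw [aeval_monomial, Finsupp.prod_fintype _ _ fun i => pow_zero _]
    have h1 : algebraMap (fldR hRA hb0 hC) K (q.coeff β.1) =
        ((q.coeff β.1 : fldR hRA hb0 hC) : K) := rfl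
    rw [h1]
    ring
  have ht0 : ∀ β, t β ≠ 0 := fun β => by
    refine mul_ne_zero (pow_ne_zero _ hz10) (mul_ne_zero hz00 ?_)
    intro h
    exact (mem_support_iff.1 β.2) (Subtype.ext h)
  let F : q.support → K := fun β => z1 ^ s * T β / QR
  -- the estimate for logarithmic frames
  let M0 : ℕ := s * (2 * m1 + 1)
  have hρ0 : ∀ (P : Place k K), Divisorial w P → ∀ E' : Fin w → Derivation k K K,
      (∀ a, DerLog P (E' a)) → rho b0 E' ≠ 0 → 0 ≤ P.ord (rho b0 E') := by
    intro P hP E' hE' h0
    have h1 := (hone 1).1 P hP E' hE'
    rw [one_mul, pow_one] at h1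
    exact (P.reg_iff h0).1 h1
  have hlogF : ∀ (P : Place k K), Divisorial w P → ∀ E' : Fin w → Derivation k K K,
      (∀ a, DerLog P (E' a)) → rho b0 E' ≠ 0 → ∀ β, Ge P (-(M0 * P.ord (rho b0 E'))) (F β) := by
    intro P hP E' hE' h0 β
    have he := hρ0 P hP E' hE' h0
    set e := P.ord (rho b0 E') with hedef
    have hLF3 := (hLF k K w b0 D hD hb0 P).2.2 E' hE'
    have hstep : ∀ m h, Ge P m h → Ge P (m - (m1 + 1) * e) (D' h) := by
      intro m h hm
      show Ge P _ (cmb D g h)
      rw [cmb_apply]
      refine Ge.sum _ _ fun j _ => ?_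
      have h1 : Ge P (-(m1 * e)) (g j) := ge_of_reg_mul_pow h0 ((hg1 j).1 P hP E' hE')
      have h2 : Ge P (m - e) (D j h) := by
        by_cases hh : h = 0
        · rw [hh, map_zero]
          exact Ge.zero
        · have h3 := hLF3 h j
          rw [mul_comm] at h3
          have h4 := Ge.of_mul h0 h3
          rw [← hedef] at h4
          exact h4.mono (by have := hm.resolve_left hh; omega)
      refine (h1.mul h2).mono ?_
      linarith
    have hzP : Ge P (-(m1 * e)) z1 := ge_of_reg_mul_pow h0 (hz11.1 P hP E' hE')
    have h5 := ge_term (P := P) D' z1 hD'z1 lam hlam T hD'T β (P.ord QR) ((m1 + 1) * e) (m1 * e)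
      (by positivity) (by positivity) (fun h hh => hstep _ h hh) (fun m h hh _ => hstep m h hh)
      hzP (by rw [← hQT]; exact Or.inr le_rfl)
    have h6 := Pool.Agent.W602.GT.ge_div hQR0 h5
    refine h6.mono ?_
    have h7 : ((M0 : ℕ) : ℤ) * e = (Fintype.card q.support - 1 : ℕ) *
        ((m1 + 1) * e + m1 * e) := by
      simp only [M0, s]
      push_cast
      ring
    rw [h7]
    linarith
  -- the forms
  let mf : ℕ := m1 * M0 + 2 * M0 + 1
  have hInF : ∀ β, InR b0 C mf (t β ^ M0 * F β) := by
    intro β
    constructor
    · intro P hP E' hE'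
      by_cases h0 : rho b0 E' = 0
      · rw [h0, zero_pow (by omega), mul_zero]
        exact P.reg_zero
      · have he := hρ0 P hP E' hE' h0
        have h1 : Ge P (-(m1 * P.ord (rho b0 E'))) (t β) :=
          ge_of_reg_mul_pow h0 ((ht1 β).1 P hP E' hE')
        have h2 := (h1.pow M0).mul (hlogF P hP E' hE' h0 β)
        refine reg_mul_pow_of_ge h0 h2 ?_
        simp only [mf]
        push_cast
        nlinarith [mul_nonneg (Int.natCast_nonneg M0) he]
    · intro P hP hCP E' hE'
      by_cases h0 : rho b0 E' = 0
      · rw [h0, zero_pow (by omega), mul_zero]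
        exact P.reg_zero
      · have he : 0 ≤ P.ord (rho b0 E') := by
          have h1 := (hone 1).2 P hP hCP E' hE'
          rw [one_mul, pow_one] at h1
          exact (P.reg_iff h0).1 h1
        obtain ⟨E'', hE'', h0'', he''⟩ := (hLF k K w b0 D hD hb0 P).1 E' hE' h0
        have h1 : Ge P (-(m1 * P.ord (rho b0 E'))) (t β) :=
          ge_of_reg_mul_pow h0 ((ht1 β).2 P hP hCP E' hE')
        have h2 : Ge P (-(M0 * (P.ord (rho b0 E') + 1))) (F β) := by
          refine (hlogF P hP E'' hE'' h0'' β).mono ?_
          have h3 := mul_le_mul_of_nonneg_left he'' (Int.natCast_nonneg M0)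
          linarith
        rcases he.eq_or_lt with he0 | he0
        · -- a place where the form has no zero
          have hDreg : ∀ j, DerReg P (D j) :=
            (hLF k K w b0 D hD hb0 P).2.1 E' hE' (hC P hCP) h0 he0.symm
          have hReg : ∀ m f, InR b0 C m f → Ge P 0 f := by
            intro m f hf
            have h3 := ge_of_reg_mul_pow h0 (hf.2 P hP hCP E' hE')
            rw [← he0, mul_zero, neg_zero] at h3
            exact h3
          have hb1 : ∀ β : Fin r →₀ ℕ, P.ord (∏ i, b i ^ (β i)) = 0 := by
            intro β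
            have h3 : ∀ s : Finset (Fin r), P.ord (∏ i ∈ s, b i ^ (β i)) = 0 := by
              intro s
              induction s using Finset.induction_on with
              | empty => rw [Finset.prod_empty]; exact P.ord_one
              | insert i s hi ih =>
                rw [Finset.prod_insert hi, P.ord_mul (pow_ne_zero _ (hbne i))
                  (Finset.prod_ne_zero_iff.2 fun i _ => pow_ne_zero _ (hbne i)), ih, P.ord_pow,
                  hbC P hCP i, mul_zero, add_zero]
            exact h3 _
          have htge : Ge P 0 (t β) := hReg _ _ (ht1 β)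
          suffices hs : Ge P 0 (t β ^ M0 * F β) by
            refine reg_mul_pow_of_ge h0 hs ?_
            rw [← he0]
            simp
          rcases le_or_gt (P.ord QR) 0 with hQ | hQ
          · have h3 : Ge P 0 (F β) := by
              show Ge P 0 (z1 ^ s * T β / QR)
              rw [hTt]
              have h4 : Ge P 0 (t β * ∏ i, b i ^ (β.1 i)) := by
                have h5 := htge.mul (Or.inr (hb1 β.1).ge : Ge P 0 (∏ i, b i ^ (β.1 i)))
                rwa [add_zero] at h5
              exact (Pool.Agent.W602.GT.ge_div hQR0 h4).mono (by omega)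
            have h4 := (htge.pow M0).mul h3
            rw [mul_zero, add_zero] at h4
            exact h4
          · -- the order of `t β` is positive
            have htpos : Ge P 1 (t β) := by
              have hE1reg : ∀ i, DerReg P (z1 • E i) := by
                intro i h hh
                show P.Reg (z1 * E i h)
                have h3 : z1 * E i h = ∑ j, (z1 * ε i j) * D j h := by
                  show z1 * cmb D (ε i) h = _
                  rw [cmb_apply, Finset.mul_sum]
                  exact Finset.sum_congr rfl fun j _ => (mul_assoc _ _ _).symm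
                rw [h3]
                refine Ge.sum (N := 0) _ _ fun j _ => ?_
                obtain ⟨m, hm⟩ := hz1 (i, j)
                have h4 := (hReg m _ hm).mul (hDreg j h hh : Ge P 0 (D j h))
                rwa [add_zero] at h4
              have hxreg : Ge P 0 x := hxC P hCP
              by_cases hcase : ∀ i h, Ge P 1 h → Ge P 1 ((z1 • E i) h)
              · have hD'1 : ∀ h, Ge P 1 h → Ge P (1 - 0) (D' h) := by
                  intro h hh
                  rw [sub_zero, hD'E, Finset.mul_sum]
                  refine Ge.sum _ _ fun i _ => ?_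
                  have h3 : z1 * (algebraMap k K (c i) * E i h) =
                      algebraMap k K (c i) * (z1 • E i) h := by
                    rw [Derivation.smul_apply, smul_eq_mul]
                    ring
                  rw [h3]
                  have h4 := (Ge.const (P := P) (c i)).mul (hcase i h hh)
                  rwa [zero_add] at h4
                have h5 := ge_term (P := P) D' z1 hD'z1 lam hlam T hD'T β 1 0 0 le_rfl le_rfl
                  hD'1 (fun m h hh h0 => absurd h0 (lt_irrefl _))
                  (by rw [neg_zero]; exact hReg _ _ hz11)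
                  (by rw [← hQT]; exact Or.inr (by omega))
                rw [add_zero, mul_zero, sub_zero] at h5
                have h6 : Ge P 1 (t β * ∏ i, b i ^ (β.1 i)) := by
                  rw [← hTt]
                  exact h5
                have hbb : (∏ i, b i ^ (β.1 i)) ≠ 0 :=
                  Finset.prod_ne_zero_iff.2 fun i _ => pow_ne_zero _ (hbne i)
                rw [mul_comm] at h6
                have h7 := Ge.of_mul hbb h6
                rwa [hb1 β.1, sub_zero] at h7
              · exfalso
                push Not at hcase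
                obtain ⟨i, h, hh, hEh⟩ := hcase
                have hh0 : h ≠ 0 := by
                  rintro rfl
                  exact hEh (by rw [map_zero]; exact Ge.zero)
                have hEh0 : (z1 • E i) h ≠ 0 := by
                  intro h3
                  exact hEh (by rw [h3]; exact Ge.zero)
                have hh1 : 1 ≤ P.ord h := hh.resolve_left hh0
                have hEreg : 0 ≤ P.ord ((z1 • E i) h) :=
                  (P.reg_iff hEh0).1 (hE1reg i h (Or.inr (by omega)))
                have hEord : P.ord ((z1 • E i) h) = 0 := by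
                  by_contra h3
                  exact hEh (Or.inr (by omega))
                -- `h` is a uniformizer
                have hord : P.ord h = 1 := by
                  by_contra h3
                  obtain ⟨π, hπ0, hπ⟩ := P.surj
                  obtain ⟨u, hu0, hu1, hu2, hu3⟩ :=
                    Pool.Agent.W602.GT.logder_eq P (z1 • E i) hπ hh0
                  have h4 : (z1 • E i) h = h * ((z1 • E i) u / u) +
                      (P.ord h : K) * (h / π) * (z1 • E i) π := by
                    have h5 : (z1 • E i) h = h * ((z1 • E i) h / h) := by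
                      field_simp
                    rw [h5, hu3]
                    field_simp
                  apply hEh
                  rw [h4]
                  have h5 : Ge P 1 (h * ((z1 • E i) u / u)) := by
                    have h6 := hh.mul (Pool.Agent.W602.GT.ge_logder_reg (hE1reg i) hu0 hu1)
                    rwa [add_zero] at h6
                  have h6 : Ge P 1 ((P.ord h : K) * (h / π) * (z1 • E i) π) := by
                    have h7 : Ge P 1 (h / π) := Or.inr (by
                      rw [P.ord_div hh0 hπ0, hπ]
                      omega)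
                    have h8 := ((Ge.intCast (P := P) (P.ord h)).mul h7).mul
                      (hE1reg i π (Or.inr (by omega)) : Ge P 0 ((z1 • E i) π))
                    rwa [zero_add, add_zero] at h8
                  exact h5.add h6
                -- the place is trivial on the field of quotients
                have htriv : ∀ z ∈ fldR hRA hb0 hC, z ≠ 0 → P.ord z = 0 := by
                  intro z hz hz0'
                  by_contra h3
                  obtain ⟨u, hu0, hu1, hu2, hu3⟩ :=
                    Pool.Agent.W602.GT.logder_eq P (z1 • E i) hord hz0'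
                  have h4 : (z1 • E i) z = 0 := by
                    rw [Derivation.smul_apply, hEκ i z hz, smul_zero]
                  rw [h4, zero_div] at hu3
                  have h5 : (P.ord z : K) * ((z1 • E i) h / h) = -((z1 • E i) u / u) := by
                    linear_combination -hu3
                  have h6 : Ge P 0 ((P.ord z : K) * ((z1 • E i) h / h)) := by
                    rw [h5]
                    exact (Pool.Agent.W602.GT.ge_logder_reg (hE1reg i) hu0 hu1).neg
                  have h7 : ((P.ord z : ℤ) : K) ≠ 0 := by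
                    have : CharZero K := charZero_of_injective_algebraMap (algebraMap k K).injective
                    exact_mod_cast h3
                  have h8 : P.ord ((P.ord z : ℤ) : K) = 0 := by
                    have h9 : ((P.ord z : ℤ) : K) = algebraMap k K ((P.ord z : ℤ) : k) :=
                      (map_intCast _ _).symm
                    rw [h9]
                    exact P.ord_const (by exact_mod_cast h3)
                  have h9 := h6.resolve_left (mul_ne_zero h7 (div_ne_zero hEh0 hh0))
                  rw [P.ord_mul h7 (div_ne_zero hEh0 hh0), h8, P.ord_div hEh0 hh0, hEord,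
                    hord] at h9
                  omega
                have hz1P : P.ord z1 = 0 := htriv z1 hz1κ hz10
                have hz0P : P.ord z0 = 0 := htriv z0 hz0κ hz00
                have hEireg : ∀ i, DerReg P (E i) := by
                  intro i f hf
                  have h3 : E i f = z1⁻¹ * (z1 • E i) f := by
                    rw [Derivation.smul_apply, smul_eq_mul, ← mul_assoc, inv_mul_cancel₀ hz10,
                      one_mul]
                  rw [h3]
                  have h4 : Ge P 0 z1⁻¹ := Or.inr (by rw [P.ord_inv, hz1P, neg_zero])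
                  have h5 := h4.mul (hE1reg i f hf : Ge P 0 _)
                  rwa [add_zero] at h5
                have hEi : E i h ≠ 0 := by
                  intro h3
                  apply hEh0
                  rw [Derivation.smul_apply, h3, smul_zero]
                have hEiord : P.ord (E i h) = 0 := by
                  have h3 : P.ord ((z1 • E i) h) = P.ord z1 + P.ord (E i h) := by
                    rw [Derivation.smul_apply, smul_eq_mul, P.ord_mul hz10 hEi]
                  rw [hEord, hz1P, zero_add] at h3
                  exact h3.symm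
                refine hFP k K w hw (fldR hRA hb0 hC) r b hbi htop P hP htriv (hbC P hCP) E hEκ
                  hEb hEireg ⟨i, h, hord, hEi, hEiord⟩ p q hp0 hq0 hpq ⟨?_, ?_⟩
                · have h3 : aeval b p = x * aeval b q := by
                    rw [hxpq, div_mul_cancel₀ _ hqb0]
                  rw [h3, P.ord_mul hx0 hqb0]
                  have h4 : P.ord QR = P.ord z0 + P.ord (aeval b q) := P.ord_mul hz00 hqb0
                  have h5 := hxreg.resolve_left hx0
                  omega
                · have h4 : P.ord QR = P.ord z0 + P.ord (aeval b q) := P.ord_mul hz00 hqb0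
                  omega
            have h3 := (htpos.pow M0).mul h2
            rw [← he0] at h3
            refine h3.mono ?_
            ring_nf
            exact le_refl _
        · have h3 := (h1.pow M0).mul h2
          refine reg_mul_pow_of_ge h0 h3 ?_
          simp only [mf]
          push_cast
          nlinarith [mul_nonneg (Int.natCast_nonneg M0) (sub_nonneg.2
            (Int.add_one_le_iff.2 he0) : (0 : ℤ) ≤ P.ord (rho b0 E') - (0 + 1))]
  -- the forms are in the field of quotients
  have hFκ : ∀ β, F β ∈ fldR hRA hb0 hC := by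
    intro β
    have h1 : t β ^ M0 * F β ∈ fldR hRA hb0 hC := ringR_le hRA hb0 hC ⟨mf, hInF β⟩
    have h2 : t β ∈ fldR hRA hb0 hC := ringR_le hRA hb0 hC (htR β)
    have h3 : F β = (t β ^ M0)⁻¹ * (t β ^ M0 * F β) := by
      rw [← mul_assoc, inv_mul_cancel₀ (pow_ne_zero _ (ht0 β)), one_mul]
    rw [h3]
    exact mul_mem (inv_mem (pow_mem h2 _)) h1
  -- there is only one term
  have hone_term : ∀ β γ : q.support, β = γ := by
    intro β γ
    by_contra hne
    have hβγ : β.1 ≠ γ.1 := fun h => hne (Subtype.ext h)
    have hTγ : T γ ≠ 0 := by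
      intro h
      have h1 := hTt γ
      rw [h, mul_zero] at h1
      exact mul_ne_zero (ht0 γ) (Finset.prod_ne_zero_iff.2 fun i _ => pow_ne_zero _ (hbne i))
        h1.symm
    have hFγ : F γ ≠ 0 := div_ne_zero (mul_ne_zero (pow_ne_zero _ hz10) hTγ) hQR0
    have h1 : F β / F γ ∈ fldR hRA hb0 hC := div_mem (hFκ β) (hFκ γ)
    have h2 : F β / F γ * aeval b (monomial γ.1 (q.coeff γ.1)) =
        aeval b (monomial β.1 (q.coeff β.1)) := by
      have h4 : aeval b (monomial γ.1 (q.coeff γ.1)) ≠ 0 := right_ne_zero_of_mul hTγ
      simp only [F, T]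
      have h5 : z1 ^ s ≠ 0 := pow_ne_zero _ hz10
      field_simp
    let d : fldR hRA hb0 hC := ⟨_, h1⟩
    have h3 : aeval b (monomial β.1 (q.coeff β.1) - MvPolynomial.C d *
        monomial γ.1 (q.coeff γ.1)) = 0 := by
      rw [map_sub, map_mul, ← h2, aeval_C]
      exact sub_self _
    have h4 := hinj _ h3
    have h5 := congrArg (MvPolynomial.coeff β.1) h4
    rw [coeff_sub, coeff_C_mul, coeff_monomial, coeff_monomial, if_pos rfl,
      if_neg (fun h => hβγ h.symm), mul_zero, sub_zero, coeff_zero] at h5
    exact (mem_support_iff.1 β.2) h5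
  obtain ⟨β, hβ⟩ : q.support.Nonempty := support_nonempty.2 hq0
  have hqm : q = monomial β (q.coeff β) := by
    conv_lhs => rw [q.as_sum]
    rw [Finset.sum_eq_single_of_mem β hβ]
    intro γ hγ hne
    exact absurd (congrArg Subtype.val (hone_term ⟨γ, hγ⟩ ⟨β, hβ⟩)) hne
  refine ⟨β, MvPolynomial.C (q.coeff β)⁻¹ * p, ?_⟩
  have hcβ : (((q.coeff β : fldR hRA hb0 hC)) : K) ≠ 0 := fun h =>
    (mem_support_iff.1 hβ) (Subtype.ext h)
  have hqe : aeval b q = ((q.coeff β : fldR hRA hb0 hC) : K) * ∏ i, b i ^ β i := by
    conv_lhs => rw [hqm]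
    rw [aeval_monomial, Finsupp.prod_fintype _ _ fun i => pow_zero _]
    rfl
  rw [map_mul, aeval_C, map_inv₀]
  have h1 : algebraMap (fldR hRA hb0 hC) K (q.coeff β) =
      ((q.coeff β : fldR hRA hb0 hC) : K) := rfl
  have h2 : aeval b p = x * aeval b q := by
    rw [hxpq, div_mul_cancel₀ _ hqb0]
  rw [h1, h2, hqe]
  field_simp

end Pool.Agent.N754.LG
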