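import Mathlib
import Pool.Agent.N754.LG.Core2

/-!
Affine varieties with function field generated by units are of logarithmic general type if there is
no Laurent curve through the generic point.
-/

set_option autoImplicit false
set_option linter.unusedSectionVars false

open MvPolynomial FF Pool.Agent.W603.LV

namespace Pool.Agent.N754.LG

open Pool.Agent.H159R3.Exp (Laur)
open Pool.Agent.W602.GT (Divisorial DerReg DerLog LogGeneralType)

theorem ord_prod_zpow {k K : Type} [Field k] [Field K] [Algebra k K] {P : Place k K} {m : ℕ}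
    (u : Fin m → K) (hu : ∀ l, u l ≠ 0) (hP : ∀ l, P.ord (u l) = 0) (a : Fin m → ℤ) :
    P.ord (∏ l, u l ^ a l) = 0 := by
  classical
  have h3 : ∀ s : Finset (Fin m), P.ord (∏ l ∈ s, u l ^ a l) = 0 := by
    intro s
    induction s using Finset.induction_on with
    | empty => rw [Finset.prod_empty]; exact P.ord_one
    | insert i s hi ih =>
      rw [Finset.prod_insert hi, P.ord_mul (zpow_ne_zero _ (hu i))
        (Finset.prod_ne_zero_iff.2 fun i _ => zpow_ne_zero _ (hu i)), ih, P.ord_zpow, hP i,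
        mul_zero, add_zero]
  exact h3 _

/-- **The curve.** -/
theorem conv (hDU : DU) (hRA : RA1) (hRA2 : RA2) (hRA3 : RA3) (hLF : LF) (hST : ST) (hFP : FP)
    (hLC : LC) {k K : Type} [Field k] [Field K] [Algebra k K] [CharZero k] {w n : ℕ}
    (hw : Algebra.trdeg k K = w) (y : Fin n → K) (U : Finset (Fin n)) (hU0 : ∀ i ∈ U, y i ≠ 0)
    (hU : ∀ P : Place k K, (∀ j, 0 ≤ P.ord (y j)) → ∀ i ∈ U, P.ord (y i) = 0)
    (hgen : IntermediateField.adjoin k (y '' (U : Set (Fin n))) = ⊤)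
    (hnot : ¬ LogGeneralType k K w fun P => ∃ j, P.ord (y j) < 0) :
    ∃ v : K → Fin n → K, (∀ j, Laur fun t => v t j) ∧ v 1 = y ∧
      (∀ Q : MvPolynomial (Fin n) k, aeval y Q = 0 → ∀ t, t ≠ 0 → aeval (v t) Q = 0) ∧
      ∃ j, v 2 j ≠ v 1 j := by
  classical
  let C : Place k K → Prop := fun P => ∀ j, 0 ≤ P.ord (y j)
  obtain ⟨b0, hb0s, hb0i⟩ := exists_basis_in (y '' (U : Set (Fin n))) hgen hw
  have hb0 : ∀ j, b0 j ≠ 0 := fun j => by
    obtain ⟨i, hi, h⟩ := hb0s j
    rw [← h]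
    exact hU0 i hi
  have hC : ∀ P, C P → ∀ j, P.ord (b0 j) = 0 := fun P hP j => by
    obtain ⟨i, hi, h⟩ := hb0s j
    rw [← h]
    exact hU P hP i hi
  obtain ⟨D, hD⟩ := hDU k K w b0 hw hb0i
  have hnottop : fldR hRA hb0 hC ≠ ⊤ := by
    intro htop
    apply hnot
    have h1 := logGT_of_top hRA hb0 hC hRA3 hD hw htop
    have h2 : (fun P : Place k K => ¬ C P) = fun P => ∃ j, P.ord (y j) < 0 := by
      funext P
      apply propext
      show (¬ ∀ j, 0 ≤ P.ord (y j)) ↔ _
      push Not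
      rfl
    rwa [h2] at h1
  -- the units
  obtain ⟨m, hm⟩ : ∃ m, m = U.card := ⟨_, rfl⟩
  let e : U ≃ Fin m := U.equivFinOfCardEq hm.symm
  let u : Fin m → K := fun l => y (e.symm l)
  have hu0 : ∀ l, u l ≠ 0 := fun l => hU0 _ (e.symm l).2
  have huC : ∀ P, C P → ∀ l, P.ord (u l) = 0 := fun P hP l => hU P hP _ (e.symm l).2
  have hrange : Set.range u = y '' (U : Set (Fin n)) := by
    ext x
    constructor
    · rintro ⟨l, rfl⟩
      exact ⟨_, (e.symm l).2, rfl⟩
    · rintro ⟨i, hi, rfl⟩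
      refine ⟨e ⟨i, hi⟩, ?_⟩
      show y (e.symm (e ⟨i, hi⟩)) = y i
      rw [Equiv.symm_apply_apply]
  have hugen : IntermediateField.adjoin k (Set.range u) = ⊤ := by rw [hrange, hgen]
  obtain ⟨r, b, hba, hbi, hub, hε⟩ := hST k K (fldR hRA hb0 hC)
    (fun x hx => fldR_closed hRA hb0 hC hx) w D
    (fun E => ⟨fun j => E (b0 j) / b0 j, fun x => hD.2 E x⟩)
    (fun j x hx => fldR_der hRA hb0 hC hRA2 hD j hx) m u hu0
    (fun j i => ringR_le hRA hb0 hC ⟨1, (hRA2 k K w b0 C D hD hb0 hC).2 (u i) j (hu0 i)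
      fun P hP => huC P hP i⟩) hugen
  choose ε hε1 hε2 hε3 using hε
  have hbC : ∀ P, C P → ∀ i, P.ord (b i) = 0 := by
    intro P hP i
    obtain ⟨a, ha⟩ := hba i
    rw [ha]
    exact ord_prod_zpow u hu0 (huC P hP) a
  have htop : IntermediateField.adjoin (fldR hRA hb0 hC) (Set.range b) = ⊤ := by
    have h1 : IntermediateField.adjoin k (Set.range u) ≤
        (IntermediateField.adjoin (fldR hRA hb0 hC) (Set.range b)).restrictScalars k := by
      rw [IntermediateField.adjoin_le_iff]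
      rintro _ ⟨l, rfl⟩
      obtain ⟨c, hc, e', he'⟩ := hub l
      rw [he']
      have h2 : ∀ i, b i ∈ IntermediateField.adjoin (fldR hRA hb0 hC) (Set.range b) := fun i =>
        IntermediateField.subset_adjoin _ _ ⟨i, rfl⟩
      have h3 : c ∈ IntermediateField.adjoin (fldR hRA hb0 hC) (Set.range b) :=
        (IntermediateField.adjoin (fldR hRA hb0 hC) (Set.range b)).algebraMap_mem
          (⟨c, hc⟩ : fldR hRA hb0 hC)
      have h4 : c * ∏ i, b i ^ e' i ∈ IntermediateField.adjoin (fldR hRA hb0 hC) (Set.range b) :=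
        mul_mem h3 (prod_mem fun i _ => zpow_mem (h2 i) _)
      exact h4
    rw [hugen] at h1
    rw [eq_top_iff]
    intro x _
    exact h1 (IntermediateField.mem_top (x := x))
  -- the coordinates
  have hcoord : ∀ j, ∃ (β : Fin r → ℕ) (p : MvPolynomial (Fin r) (fldR hRA hb0 hC)),
      y j * ∏ i, b i ^ β i = aeval b p := by
    intro j
    by_cases h0 : y j = 0
    · exact ⟨0, 0, by rw [h0, zero_mul, map_zero]⟩
    · exact core hRA hLF hFP hw hD hb0 hC hbi htop hbC ε hε1 hε2 hε3 h0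
        fun P hP => Or.inr (hP j)
  obtain ⟨l, hl⟩ : ∃ l, u l ∉ fldR hRA hb0 hC := by
    by_contra hcon
    push Not at hcon
    apply hnottop
    rw [eq_top_iff, ← hugen, IntermediateField.adjoin_le_iff]
    rintro _ ⟨l, rfl⟩
    exact hcon l
  obtain ⟨c, hc, e', he'⟩ := hub l
  obtain ⟨i0, hi0⟩ : ∃ i0, e' i0 ≠ 0 := by
    by_contra hcon
    push Not at hcon
    apply hl
    rw [he', Finset.prod_eq_one fun i _ => by rw [hcon i, zpow_zero], mul_one]
    exact hc
  have hc0 : c ≠ 0 := by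
    rintro rfl
    rw [zero_mul] at he'
    exact hu0 l he'
  obtain ⟨v, hv1, hv2, hv3, hv4⟩ := hLC k K (fldR hRA hb0 hC) r b hbi n y hcoord
    ⟨(e.symm l : Fin n), c, hc, hc0, e', i0, hi0, he'⟩
  exact ⟨v, hv1, hv2, hv3, hv4⟩

end Pool.Agent.N754.LG
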