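import Mathlib
import Pool.Agent.N754.FV.Gm
import Pool.Agent.N754.LG.Main

/-!
Affine varieties whose function field is generated by units.
-/

set_option autoImplicit false
set_option linter.unusedSectionVars false
set_option linter.overlappingInstances false

open MvPolynomial FF Pool.Agent.W603.LV Filter

namespace Pool.Agent.N754.LG

open Pool.Agent.H159R3.Exp (Laur)
open Pool.Agent.N754.FV
open Pool.Agent.W602.GT (Divisorial DerReg DerLog LogGeneralType)

/-- the closed subvariety with prime ideal `p`; the coordinates in `U` are invertible, and they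
determine the other ones outside `H = 0` -/
structure Gen {F : Type} [Field F] {n : ℕ} (p : Ideal (MvPolynomial (Fin n) F))
    (U : Finset (Fin n)) (H : MvPolynomial (Fin n) F) : Prop where
  prime : p.IsPrime
  unit : ∀ i ∈ U, ∃ B, B * X i - 1 ∈ p
  notMem : H ∉ p
  alone : ∀ (M : Type) [Field M] [Algebra F M] (z z' : Fin n → M), (∀ Q ∈ p, aeval z Q = 0) →
    (∀ Q ∈ p, aeval z' Q = 0) → aeval z H ≠ 0 → (∀ i ∈ U, z' i = z i) → z' = z

/-- polynomials in some of the variables -/
theorem aeval_supp {F : Type} [Field F] {n : ℕ} {U : Finset (Fin n)}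
    {R : MvPolynomial (Fin n) F}
    (hR : R ∈ Algebra.adjoin F ((X : Fin n → MvPolynomial (Fin n) F) '' (U : Set (Fin n))))
    {M : Type} [Field M] [Algebra F M] (z z' : Fin n → M) (h : ∀ i ∈ U, z' i = z i) :
    aeval z' R = aeval z R := by
  induction hR using Algebra.adjoin_induction with
  | mem x hx =>
    obtain ⟨i, hi, rfl⟩ := hx
    rw [aeval_X, aeval_X]
    exact h i hi
  | algebraMap r => rw [AlgHom.commutes, AlgHom.commutes]
  | add x y _ _ hx hy => rw [map_add, map_add, hx, hy]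
  | mul x y _ _ hx hy => rw [map_mul, map_mul, hx, hy]

theorem reg_aeval0 {F K : Type} [Field F] [Field K] [Algebra F K] (P : Place F K) {n : ℕ}
    {y : Fin n → K} (hy : ∀ i, P.Reg (y i)) (G : MvPolynomial (Fin n) F) :
    P.Reg (aeval y G) := by
  induction G using MvPolynomial.induction_on with
  | C a => rw [aeval_C]; exact P.reg_const a
  | add p q hp hq => rw [map_add]; exact P.reg_add hp hq
  | mul_X p j hp => rw [map_mul, aeval_X]; exact P.reg_mul hp (hy j)

/-- a field is algebraic over the ring generated by a set of generators -/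
theorem isAlgebraic_of_adjoin {k K : Type} [Field k] [Field K] [Algebra k K] (s : Set K)
    (hs : IntermediateField.adjoin k s = ⊤) : Algebra.IsAlgebraic (Algebra.adjoin k s) K := by
  refine ⟨fun x => ?_⟩
  have hx : x ∈ IntermediateField.adjoin k s := by rw [hs]; trivial
  obtain ⟨r, hr, t, ht, hx⟩ := IntermediateField.mem_adjoin_iff_div.1 hx
  by_cases h0 : t = 0
  · rw [hx, h0, div_zero]
    exact isAlgebraic_zero
  · refine ⟨Polynomial.C ⟨t, ht⟩ * Polynomial.X - Polynomial.C ⟨r, hr⟩, ?_, ?_⟩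
    · intro h
      have h1 := congrArg (fun p => Polynomial.coeff p 1) h
      simp only [Polynomial.coeff_sub, Polynomial.coeff_C_mul, Polynomial.coeff_X_one, mul_one,
        Polynomial.coeff_C_succ, sub_zero, Polynomial.coeff_zero] at h1
      exact h0 (congrArg Subtype.val h1)
    · rw [map_sub, map_mul, Polynomial.aeval_C, Polynomial.aeval_X, Polynomial.aeval_C]
      show t * x - r = 0
      rw [hx, mul_div_cancel₀ _ h0, sub_self]

/-- certificates from generation of the function field -/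
theorem exists_gen {F : Type} [Field F] {n : ℕ} {p : Ideal (MvPolynomial (Fin n) F)}
    (U : Finset (Fin n)) {K : Type} [Field K] [Algebra F K] (y : Fin n → K)
    (hy : ∀ Q, aeval y Q = 0 ↔ Q ∈ p)
    (hgen : IntermediateField.adjoin F (y '' (U : Set (Fin n))) = ⊤)
    (Ω : Type) [Field Ω] [Algebra F Ω] [IsAlgClosed Ω]
    (hU : ∀ z : Fin n → Ω, (∀ Q ∈ p, aeval z Q = 0) → ∀ i ∈ U, z i ≠ 0) :
    ∃ H, Gen p U H := by
  classical
  have hprime : p.IsPrime := by
    have h1 : p = RingHom.ker (aeval (R := F) y) := by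
      ext Q
      rw [RingHom.mem_ker, hy]
    rw [h1]
    exact RingHom.ker_isPrime _
  have hspan : Ideal.span (Set.range fun l : p => (l : MvPolynomial (Fin n) F)) = p := by
    have h1 : (Set.range fun l : p => (l : MvPolynomial (Fin n) F)) =
        (p : Set (MvPolynomial (Fin n) F)) := Subtype.range_coe
    rw [h1]
    exact Ideal.span_eq p
  have h1 : ∀ j, ∃ P ∈ Algebra.adjoin F ((X : Fin n → MvPolynomial (Fin n) F) ''
      (U : Set (Fin n))), ∃ Q ∈ Algebra.adjoin F ((X : Fin n → MvPolynomial (Fin n) F) ''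
      (U : Set (Fin n))), Q ∉ p ∧ Q * X j - P ∈ p := by
    intro j
    have hj : y j ∈ IntermediateField.adjoin F (y '' (U : Set (Fin n))) := by
      rw [hgen]
      trivial
    obtain ⟨r, hr, s, hs, hrs⟩ := IntermediateField.mem_adjoin_iff_div.1 hj
    have himg : y '' (U : Set (Fin n)) = (aeval (R := F) y) ''
        ((X : Fin n → MvPolynomial (Fin n) F) '' (U : Set (Fin n))) := by
      rw [Set.image_image]
      exact Set.image_congr fun i _ => (aeval_X _ _).symm
    rw [himg, ← AlgHom.map_adjoin] at hr hs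
    obtain ⟨R, hR, hRr⟩ := hr
    obtain ⟨S, hS, hSs⟩ := hs
    have hRr' : aeval y R = r := hRr
    have hSs' : aeval y S = s := hSs
    by_cases h0 : s = 0
    · refine ⟨0, zero_mem _, 1, one_mem _, p.ne_top_iff_one.1 hprime.ne_top, ?_⟩
      rw [← hy, one_mul, sub_zero, aeval_X, hrs, h0, div_zero]
    · refine ⟨R, hR, S, hS, fun h => h0 ?_, ?_⟩
      · rw [← hSs', (hy S).2 h]
      · rw [← hy, map_sub, map_mul, aeval_X, hSs', hRr', hrs, mul_div_cancel₀ _ h0, sub_self]
  choose P hP Q hQ hQp hrel using h1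
  refine ⟨∏ j, Q j, hprime, fun i hi => ?_, fun h => ?_, fun M _ _ z z' hz hz' hH hzz' => ?_⟩
  · have h2 := unit_certF (Ω := Ω) (fun l : p => (l : MvPolynomial (Fin n) F)) i
      fun z hz => hU z (fun Q hQ => hz ⟨Q, hQ⟩) i hi
    rwa [hspan] at h2
  · obtain ⟨j, -, hj⟩ := (Ideal.IsPrime.prod_mem_iff (hp := hprime)).1 h
    exact hQp j hj
  · funext j
    rw [map_prod, Finset.prod_ne_zero_iff] at hH
    have h2 := hH j (Finset.mem_univ j)
    have h3 := hz _ (hrel j)
    have h4 := hz' _ (hrel j)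
    rw [map_sub, map_mul, aeval_X, sub_eq_zero] at h3 h4
    rw [aeval_supp (hQ j) z z' hzz', aeval_supp (hP j) z z' hzz', ← h3] at h4
    exact mul_left_cancel₀ h2 h4

/-- **Laurent curves through generic points**, from maps of affine curves, for varieties with
function field generated by units. -/
theorem genA {F k : Type} [Field F] [Field k] [IsAlgClosed k] [CharZero k] [Algebra F k]
    (hWR : WR) (hEMB : EMB) {n : ℕ} {U : Finset (Fin n)} {p : Ideal (MvPolynomial (Fin n) F)}
    {H : MvPolynomial (Fin n) F} (hG : Gen p U H)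
    (hno : ∀ G, G ∉ p → ∀ C : ℕ, ∃ (K : Type) (_ : Field K) (_ : Algebra k K) (_ : IsFF k K)
      (S : Finset (Place k K)) (x : Fin n → K), (∀ i, ∀ P ∉ S, 0 ≤ P.ord (x i)) ∧
      (∀ Q ∈ p, aeval x (map (algebraMap F k) Q) = 0) ∧
      aeval x (map (algebraMap F k) G) ≠ 0 ∧ (C : ℤ) * max (euler S) 1 ≤ mapDeg k x) :
    ∃ (M : Type) (_ : Field M) (_ : Algebra F M) (v : M → Fin n → M),
      (∀ j, Laur fun t => v t j) ∧ (∀ Q ∈ p, ∀ s, s ≠ 0 → aeval (v s) Q = 0) ∧
      (∀ Q, aeval (v 1) Q = 0 ↔ Q ∈ p) ∧ ∃ j, v 2 j ≠ v 1 j := by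
  classical
  have hprime := hG.prime
  obtain ⟨𝒰, h𝒰1, h𝒰2⟩ := exists_uf p
  let α := {G : MvPolynomial (Fin n) F // G ∉ p} × ℕ
  have hno' := fun t : α => hno t.1.1 t.1.2 t.2
  choose K i1 i2 i3 S x hx1 hx2 hx3 hx4 using hno'
  let Ω := AlgebraicClosure (RatFunc k)
  have hΩ : ∃ z : Ω, Transcendental k z := by
    refine ⟨algebraMap (RatFunc k) Ω RatFunc.X, ?_⟩
    rw [transcendental_algebraMap_iff (algebraMap (RatFunc k) Ω).injective]
    exact RatFunc.transcendental_X
  have hCK : ∀ t, CharZero (K t) := fun t =>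
    charZero_of_injective_algebraMap (algebraMap k (K t)).injective
  have hσ : ∀ t, Nonempty (K t →ₐ[k] Ω) := fun t => (hEMB k (K t)).2 Ω hΩ
  let σ : ∀ t, K t →ₐ[k] Ω := fun t => (hσ t).some
  have hcan : ∀ t, (-2 : ℤ) ≤ canDeg k (K t) := fun t => (hEMB k (K t)).1
  have hsz : ∀ t, ((mapDeg k (x t) : ℤ) : ℝ) ≤ sz (S t) (x t) := fun t =>
    mapDeg_le_sz (S t) (x t) (hx1 t)
  have hbig : ∀ C : ℝ, ∀ᶠ t in (𝒰 : Filter α), C * ((max (euler (S t)) 1 : ℤ) : ℝ) ≤
      sz (S t) (x t) := by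
    intro C
    obtain ⟨C', hC'⟩ := exists_nat_ge C
    filter_upwards [h𝒰2 C'] with t ht
    have h1 : (((t.2 : ℤ) * max (euler (S t)) 1 : ℤ) : ℝ) ≤
        ((mapDeg k (x t) : ℤ) : ℝ) := by exact_mod_cast hx4 t
    refine le_trans ?_ (h1.trans (hsz t))
    have h2 : (1 : ℝ) ≤ ((max (euler (S t)) 1 : ℤ) : ℝ) := by exact_mod_cast le_max_right _ _
    have h3 : (C' : ℝ) ≤ (t.2 : ℝ) := by exact_mod_cast ht
    rw [Int.cast_mul, Int.cast_natCast]
    exact mul_le_mul_of_nonneg_right (hC'.trans h3) (by linarith)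
  have hsmall : ∀ (f : α → ℝ) (c : ℝ), (∀ t, f t ≤ c * ((max (euler (S t)) 1 : ℤ) : ℝ)) →
      0 ≤ c → ∀ ε : ℝ, 0 < ε → ∀ᶠ t in (𝒰 : Filter α), f t ≤ ε * sz (S t) (x t) := by
    intro f c hf hc ε hε
    filter_upwards [hbig (c / ε)] with t ht
    refine (hf t).trans ?_
    have h1 := mul_le_mul_of_nonneg_left ht hε.le
    calc c * ((max (euler (S t)) 1 : ℤ) : ℝ) = ε * (c / ε * ((max (euler (S t)) 1 : ℤ) : ℝ)) := by
          field_simp
      _ ≤ _ := h1
  let E : p → MvPolynomial (Fin n) k := fun l => map (algebraMap F k) l.1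
  have hseq := seq hWR 𝒰 K σ S x U ∅ E (Eventually.of_forall hx1)
    (fun l => Eventually.of_forall fun t => hx2 t _ l.2)
    (fun i hi => by
      obtain ⟨B, hB⟩ := hG.unit i hi
      refine ⟨map (algebraMap F k) B, Eventually.of_forall fun t => ?_⟩
      have h4 := hx2 t _ hB
      rw [map_sub, map_mul, map_X, map_one, map_sub, map_mul, aeval_X, map_one,
        sub_eq_zero] at h4
      exact h4)
    (fun C => by
      filter_upwards [hbig (max C 0)] with t ht
      refine le_trans ?_ ht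
      have h2 : (1 : ℝ) ≤ ((max (euler (S t)) 1 : ℤ) : ℝ) := by exact_mod_cast le_max_right _ _
      calc C ≤ max C 0 := le_max_left _ _
        _ = max C 0 * 1 := (mul_one _).symm
        _ ≤ _ := mul_le_mul_of_nonneg_left h2 (le_max_right _ _))
    (hsmall (fun t => ((S t).card : ℝ)) 3 (fun t => by
      have h1 : ((S t).card : ℤ) ≤ 3 * max (euler (S t)) 1 := by
        have h2 := hcan t
        have h3 : euler (S t) = canDeg k (K t) + (S t).card := rfl
        have h4 := le_max_left (euler (S t)) 1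
        have h5 := le_max_right (euler (S t)) 1
        omega
      exact_mod_cast h1) (by norm_num))
    (hsmall (fun t => ((euler (S t) : ℤ) : ℝ)) 1 (fun t => by
      rw [one_mul]
      exact_mod_cast le_max_left _ _) zero_le_one)
    (fun i hi => absurd hi (Finset.notMem_empty i))
  let Φk : k →+* GC Ω α 𝒰 := (gc 𝒰).comp ((Pi.constRingHom α Ω).comp (algebraMap k Ω))
  let : Algebra F (GC Ω α 𝒰) := (Φk.comp (algebraMap F k)).toAlgebra
  have hchar : CharZero (GC Ω α 𝒰) := charZero_of_injective_ringHom Φk.injective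
  have hmap : ∀ (z : Fin n → GC Ω α 𝒰) (Q : MvPolynomial (Fin n) F),
      eval₂ Φk z (map (algebraMap F k) Q) = aeval z Q := by
    intro z Q
    rw [eval₂_map]
    rfl
  let y : Fin n → GC Ω α 𝒰 := fun i => gc 𝒰 fun t => σ t (x t i)
  have hy : ∀ Q, aeval y Q = 0 ↔ Q ∈ p := by
    intro Q
    have h1 : aeval y Q = gc 𝒰 fun t => σ t (aeval (x t) (map (algebraMap F k) Q)) := by
      rw [← hmap, gc_eval 𝒰 (algebraMap k Ω) (fun t i => σ t (x t i))]
      congr 1
      funext t
      have h3 : σ t (aeval (x t) (map (algebraMap F k) Q)) =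
          aeval (fun i => σ t (x t i)) (map (algebraMap F k) Q) := by
        have h4 : (σ t).comp (aeval (x t)) = aeval (R := k) fun i => σ t (x t i) := by
          apply MvPolynomial.algHom_ext
          intro i
          rw [AlgHom.comp_apply, aeval_X, aeval_X]
        rw [← h4]
        rfl
      rw [h3, aeval_def]
    rw [h1, gc_zero]
    constructor
    · intro h
      by_contra hQ
      obtain ⟨t, ht1, ht2⟩ := (h.and (h𝒰1 Q hQ)).exists
      obtain ⟨R, hR⟩ := ht2
      apply hx3 t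
      have h5 : aeval (x t) (map (algebraMap F k) Q) = 0 :=
        (map_eq_zero_iff (σ t) (σ t).injective).1 ht1
      rw [hR, map_mul, map_mul, h5, zero_mul]
    · intro hQ
      exact Eventually.of_forall fun t => by rw [hx2 t Q hQ, map_zero]
  refine ⟨GC Ω α 𝒰, inferInstance, inferInstance, ?_⟩
  rcases hseq with ⟨z, h1, h2, h3⟩ | ⟨v, h1, h2, -, h3, h4⟩
  · exfalso
    apply h3
    refine hG.alone (GC Ω α 𝒰) y z (fun Q hQ => (hy Q).2 hQ) (fun Q hQ => ?_)
      (fun h => hG.notMem ((hy _).1 h)) fun i hi => h2 i (Finset.mem_union_left _ hi)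
    rw [← hmap]
    exact h1 ⟨Q, hQ⟩
  · refine ⟨v, h1, fun Q hQ s hs => ?_, fun Q => ?_, h4⟩
    · rw [← hmap]
      exact h2 ⟨Q, hQ⟩ s hs
    · rw [h3]
      exact hy Q

/-- a generic Laurent curve excludes log general type -/
theorem not_logGT' {F : Type} [Field F] [CharZero F] {n : ℕ}
    {p : Ideal (MvPolynomial (Fin n) F)} (hp : p.IsPrime) {M : Type} [Field M] [Algebra F M]
    (v : M → Fin n → M) (hv : ∀ j, Laur fun t => v t j)
    (hvE : ∀ Q ∈ p, ∀ s, s ≠ 0 → aeval (v s) Q = 0)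
    (hgen : ∀ Q, aeval (v 1) Q = 0 ↔ Q ∈ p) (hne : ∃ j, v 2 j ≠ v 1 j) : ¬ LogGT p := by
  have hspan : Ideal.span (Set.range fun l : p => (l : MvPolynomial (Fin n) F)) = p := by
    have h1 : (Set.range fun l : p => (l : MvPolynomial (Fin n) F)) =
        (p : Set (MvPolynomial (Fin n) F)) := Subtype.range_coe
    rw [h1]
    exact Ideal.span_eq p
  refine not_logGT (fun l : p => (l : MvPolynomial (Fin n) F)) ?_ v hv
    (fun l s hs => hvE l.1 l.2 s hs) hgen hne
  rw [hspan]
  exact ⟨⟨hp, le_refl _⟩, fun q hq _ => hq.2⟩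

/-- **Log general type excludes Laurent curves outside a proper closed subset.** -/
theorem laurIn_of_logGT {F k : Type} [Field F] [CharZero F] [Field k] [IsAlgClosed k]
    [CharZero k] [Algebra F k] (hWR : WR) (hEMB : EMB) (hRC : RC) {n : ℕ} {U : Finset (Fin n)}
    {p : Ideal (MvPolynomial (Fin n) F)} {H : MvPolynomial (Fin n) F} (hG : Gen p U H)
    (hL : LogGT p) : ∃ H', H' ∉ p ∧ LaurIn k (fun l : p => (l : MvPolynomial (Fin n) F))
      (fun _ : Unit => H') := by
  classical
  by_contra hcon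
  push Not at hcon
  have hFF : IsFF k (RatFunc k) := Pool.Agent.TH143.GT.isFF_ratFunc k
  obtain ⟨M, _, _, v, h1, h2, h3, h4⟩ := genA (k := k) hWR hEMB hG (fun G hGp C => by
    have h1 := hcon G hGp
    unfold LaurIn at h1
    push Not at h1
    obtain ⟨v, hv, hvE, ⟨s1, s2, hs1, hs2, hne⟩, -, s0, hs0, hG0⟩ := h1
    obtain ⟨S, P0, -, hS, hRS⟩ := hRC k n v hv ⟨s1, s2, hs1, hs2, hne⟩ s0 hs0
    obtain ⟨f, hf1, hf2, hf3, hf4⟩ := hRS C
    refine ⟨RatFunc k, inferInstance, inferInstance, hFF, S, f, hf1, fun Q hQ => ?_, ?_, ?_⟩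
    · refine hf3 _ fun s hs => ?_
      rw [eval_map]
      exact hvE ⟨Q, hQ⟩ s hs
    · intro h0
      have h5 := vaeval hf4 (map (algebraMap F k) G)
      rw [h0] at h5
      refine not_ge_const ?_ h5
      rw [eval_map]
      exact hG0
    · rw [hS, max_eq_right zero_le_one, mul_one]
      exact hf2.le)
  exact not_logGT' hG.prime v h1 h2 h3 h4 hL

/-- **Laurent curves through general points, if the variety is not of log general type.** -/
theorem laurent_of_not {F : Type} [Field F] [CharZero F] (hSPL : SPL) (hDU : DU) (hRA : RA1)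
    (hRA2 : RA2) (hRA3 : RA3) (hLF : LF) (hST : ST) (hFP : FP) (hLC : LC) {n : ℕ}
    {U : Finset (Fin n)} {p : Ideal (MvPolynomial (Fin n) F)} {H : MvPolynomial (Fin n) F}
    (hG : Gen p U H) {K : Type} [Field K] [Algebra F K] (y : Fin n → K)
    (hy : ∀ Q, aeval y Q = 0 ↔ Q ∈ p)
    (hgen : IntermediateField.adjoin F (y '' (U : Set (Fin n))) = ⊤) (hL : ¬ LogGT p)
    (Ω : Type) [Field Ω] [Algebra F Ω] [IsAlgClosed Ω] (H' : MvPolynomial (Fin n) F)
    (hH' : H' ∉ p) : ∃ v : Ω → Fin n → Ω, (∀ j, Laur fun t => v t j) ∧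
      (∀ Q ∈ p, ∀ s, s ≠ 0 → aeval (v s) Q = 0) ∧ (∃ j, v 2 j ≠ v 1 j) ∧ aeval (v 1) H' ≠ 0 := by
  classical
  have htop : IntermediateField.adjoin F (Set.range y) = ⊤ := by
    rw [eq_top_iff, ← hgen]
    exact IntermediateField.adjoin.mono F _ _ (Set.image_subset_range _ _)
  obtain ⟨w, hw⟩ : ∃ w : ℕ, Algebra.trdeg F K = w := by
    have halg := isAlgebraic_of_adjoin (Set.range y) htop
    have h1 : Algebra.trdeg F K ≤ Cardinal.mk (Set.range y) :=
      Algebra.IsAlgebraic.trdeg_le_cardinalMk F (Set.range y)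
    exact Cardinal.lt_aleph0.1 (h1.trans_lt (Cardinal.lt_aleph0_of_finite _))
  obtain ⟨v, h1, h2, h3, h4⟩ := conv hDU hRA hRA2 hRA3 hLF hST hFP hLC hw y U
    (fun i hi h0 => by
      obtain ⟨B, hB⟩ := hG.unit i hi
      have h1 := (hy _).2 hB
      rw [map_sub, map_mul, aeval_X, map_one, h0, mul_zero, zero_sub, neg_eq_zero] at h1
      exact one_ne_zero h1)
    (fun P hP i hi => by
      obtain ⟨B, hB⟩ := hG.unit i hi
      have h1 := (hy _).2 hB
      rw [map_sub, map_mul, aeval_X, map_one, sub_eq_zero] at h1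
      have h2 : P.Reg (aeval y B) :=
        reg_aeval0 P (fun j => Or.inr (hP j)) B
      have h3 : aeval y B ≠ 0 := left_ne_zero_of_mul (by rw [h1]; exact one_ne_zero)
      have h4 : y i ≠ 0 := right_ne_zero_of_mul (by rw [h1]; exact one_ne_zero)
      have h5 := congrArg P.ord h1
      rw [P.ord_mul h3 h4, P.ord_one] at h5
      have h6 := (P.reg_iff h3).1 h2
      have h7 := hP i
      omega)
    hgen (fun h => hL ⟨K, inferInstance, inferInstance, y, w, hy, htop, h⟩)
  obtain ⟨v', e1, e2, e3, e4⟩ := hSPL F Ω K p n (fun l : p => (l : MvPolynomial (Fin n) F)) H' v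
    h1 (fun l s hs => h3 l.1 ((hy _).2 l.2) s hs) h4 (by
      rw [h2]
      exact fun h => hH' ((hy _).1 h))
  exact ⟨v', e1, fun Q hQ s hs => e2 ⟨Q, hQ⟩ s hs, e3, e4⟩

end Pool.Agent.N754.LG
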