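import Mathlib
import Pool.Agent.N754.LG.Cls
import Pool.Agent.N754.FV.Stm2

/-!
Degree bounds, pointed maps and Laurent curves.
-/

set_option autoImplicit false
set_option linter.unusedSectionVars false
set_option linter.overlappingInstances false

open MvPolynomial FF Pool.Agent.W603.LV Filter

namespace Pool.Agent.N754.LG

open Pool.Agent.H159R3.Exp (Laur)
open Pool.Agent.N754.FV
open Pool.Agent.W602.GT (Divisorial DerReg DerLog LogGeneralType)

/-- **The degree bound for varieties of logarithmic general type.** -/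
theorem boundA_of_logGT {F k : Type} [Field F] [CharZero F] [Field k] [IsAlgClosed k]
    [CharZero k] [Algebra F k] (hWR : WR) (hEMB : EMB) {n : ℕ} {U : Finset (Fin n)}
    {p : Ideal (MvPolynomial (Fin n) F)} {H : MvPolynomial (Fin n) F} (hG : Gen p U H)
    (hL : LogGT p) :
    ∃ H', H' ∉ p ∧ ∃ A : ℕ, ∀ (K : Type) [Field K] [Algebra k K] [IsFF k K]
      (S : Finset (Place k K)) (x : Fin n → K), (∀ i, ∀ P ∉ S, 0 ≤ P.ord (x i)) →
      (∀ Q ∈ p, aeval x (map (algebraMap F k) Q) = 0) →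
      aeval x (map (algebraMap F k) H') ≠ 0 → mapDeg k x < (A : ℤ) * max (euler S) 1 := by
  classical
  by_contra hcon
  push Not at hcon
  obtain ⟨M, _, _, v, h1, h2, h3, h4⟩ := genA (k := k) hWR hEMB hG
    (fun G hGp C => by
      obtain ⟨K, i1, i2, i3, S, x, h⟩ := hcon G hGp C
      exact ⟨K, i1, i2, i3, S, x, h⟩)
  exact not_logGT' hG.prime v h1 h2 h3 h4 hL

/-- the bound for the degree by the Euler characteristic -/
theorem linear_of_max {k : Type} [Field k] [IsAlgClosed k] [CharZero k] (hGZ : GZ) {n : ℕ}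
    (I' J : Ideal (MvPolynomial (Fin n) k)) (A : ℕ)
    (h : ∀ (K : Type) [Field K] [Algebra k K] [IsFF k K] (S : Finset (Place k K))
      (f : Fin n → K), (∀ j, ∀ P ∉ S, 0 ≤ P.ord (f j)) → (∀ Q ∈ I', aeval f Q = 0) →
      (∃ Q ∈ J, aeval f Q ≠ 0) → mapDeg k f < A * max (euler S) 1) :
    ∀ (K : Type) [Field K] [Algebra k K] [IsFF k K] (S : Finset (Place k K)) (f : Fin n → K),
      (∀ j, ∀ P ∉ S, 0 ≤ P.ord (f j)) → (∀ Q ∈ I', aeval f Q = 0) →
      (∃ Q ∈ J, aeval f Q ≠ 0) → (∃ j, ∀ c : k, f j ≠ algebraMap k K c) →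
      mapDeg k f ≤ A * euler S := by
  intro K _ _ _ S f hf hfI hfJ hne
  have hcK : CharZero K := charZero_of_injective_algebraMap (algebraMap k K).injective
  rcases le_or_gt 1 (euler S) with hS | hS
  · have h1 := h K S f hf hfI hfJ
    rw [max_eq_left hS] at h1
    exact h1.le
  · exfalso
    obtain ⟨φ, h1, h2⟩ := exists_large (k := k) hGZ S (by omega) f hf hne A
    have hφ : ∀ R : MvPolynomial (Fin n) k, aeval (fun j => φ (f j)) R = φ (aeval f R) := by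
      intro R
      have h4 : φ.comp (aeval f) = aeval (R := k) fun i => φ (f i) := by
        apply MvPolynomial.algHom_ext
        intro i
        rw [AlgHom.comp_apply, aeval_X, aeval_X]
      rw [← h4]
      rfl
    obtain ⟨Q, hQ, hfQ⟩ := hfJ
    have h3 := h K S (fun j => φ (f j)) h1 (fun R hR => by rw [hφ, hfI R hR, map_zero])
      ⟨Q, hQ, by rw [hφ]; exact (map_ne_zero_iff φ φ.injective).2 hfQ⟩
    rw [max_eq_right hS.le, mul_one] at h3
    omega

/-- finiteness of pointed maps -/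
theorem pointed_finite {k : Type} [Field k] [IsAlgClosed k] [CharZero k] (hPTU : PTU) {K : Type}
    [Field K] [Algebra k K] [IsFF k K] (S : Finset (Place k K)) (P0 : Place k K) (hP0 : P0 ∉ S)
    {n : ℕ} (U : Finset (Fin n)) (x : Fin n → k) (hx : ∀ i ∈ U, x i ≠ 0)
    (𝓕 : Set (Fin n → K)) (B : ℤ) (hU : ∀ f ∈ 𝓕, ∀ i ∈ U, f i ≠ 0 ∧ ∀ P ∉ S, P.ord (f i) = 0)
    (hB : ∀ f ∈ 𝓕, mapDeg k f ≤ B) (hv : ∀ f ∈ 𝓕, ∀ j, Ge P0 1 (f j - algebraMap k K (x j)))
    (hinj : ∀ f ∈ 𝓕, ∀ g ∈ 𝓕, (∀ i ∈ U, f i = g i) → f = g) : 𝓕.Finite := by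
  classical
  have hcK : CharZero K := charZero_of_injective_algebraMap (algebraMap k K).injective
  let Φ : (Fin n → K) → (U → K) := fun f i => f i
  have hfin : (Set.pi Set.univ fun i : U => {f : K | f ≠ 0 ∧ (∀ P ∉ S, P.ord f = 0) ∧
      hgt k f ≤ B ∧ Ge P0 1 (f - algebraMap k K (x i))}).Finite :=
    Set.Finite.pi fun i : U => hPTU k K S B P0 hP0 (x i) (hx i i.2)
  refine Set.Finite.of_finite_image (f := Φ) (hfin.subset ?_) ?_
  · rintro _ ⟨f, hf, rfl⟩ i _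
    exact ⟨(hU f hf i i.2).1, (hU f hf i i.2).2, (hgt_le_mapDeg f i).trans (hB f hf),
      hv f hf i⟩
  · intro f hf g hg hfg
    exact hinj f hf g hg fun i hi => congrFun hfg ⟨i, hi⟩

/-- Laurent curves from finiteness of pointed maps -/
theorem laurIn_of_pointed {k : Type} [Field k] [IsAlgClosed k] [CharZero k] (hRC : RC) {n : ℕ}
    {ι κ : Type} (E : ι → MvPolynomial (Fin n) k) (G : κ → MvPolynomial (Fin n) k)
    (h : ∀ (S : Finset (Place k (RatFunc k))) (P0 : Place k (RatFunc k)), P0 ∉ S →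
      ∀ x : Fin n → k, (∀ l, aeval x (E l) = 0) → (∃ l, aeval x (G l) ≠ 0) →
      {f : Fin n → RatFunc k | (∀ j, ∀ P ∉ S, 0 ≤ P.ord (f j)) ∧ (∀ l, aeval f (E l) = 0) ∧
        ∀ j, Ge P0 1 (f j - algebraMap k (RatFunc k) (x j))}.Finite) : LaurIn k E G := by
  classical
  intro v hv hvE ⟨s1, s2, hs1, hs2, hne⟩ l s0 hs0
  by_contra hcon
  obtain ⟨S, P0, hP0, -, hRS⟩ := hRC k n v hv ⟨s1, s2, hs1, hs2, hne⟩ s0 hs0
  have hfin := h S P0 hP0 (v s0) (fun l => hvE l s0 hs0) ⟨l, hcon⟩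
  choose f hf1 hf2 hf3 hf4 using hRS
  have hmem : ∀ C, f C ∈ {f : Fin n → RatFunc k | (∀ j, ∀ P ∉ S, 0 ≤ P.ord (f j)) ∧
      (∀ l, aeval f (E l) = 0) ∧ ∀ j, Ge P0 1 (f j - algebraMap k (RatFunc k) (v s0 j))} :=
    fun C => ⟨hf1 C, fun l => hf3 C _ fun s hs => by
      have h1 := hvE l s hs
      rwa [Pool.Agent.N754.LT.ae_eval] at h1, hf4 C⟩
  obtain ⟨B, hB⟩ : ∃ B : ℤ, ∀ g ∈ {f : Fin n → RatFunc k | (∀ j, ∀ P ∉ S, 0 ≤ P.ord (f j)) ∧
      (∀ l, aeval f (E l) = 0) ∧ ∀ j, Ge P0 1 (f j - algebraMap k (RatFunc k) (v s0 j))},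
      mapDeg k g ≤ B := by
    have h1 := hfin.image (mapDeg k)
    obtain ⟨B, hB⟩ := h1.bddAbove
    exact ⟨B, fun g hg => hB ⟨g, hg, rfl⟩⟩
  exact absurd (hB _ (hmem B)) (not_le.2 (hf2 B))

/-- orders of units -/
theorem unit_ord {k K : Type} [Field k] [Field K] [Algebra k K] {n : ℕ} {P : Place k K}
    (f : Fin n → K) (hf : ∀ j, 0 ≤ P.ord (f j)) (i : Fin n) (B : MvPolynomial (Fin n) k)
    (hB : aeval f (B * X i - 1) = 0) : f i ≠ 0 ∧ P.ord (f i) = 0 := by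
  rw [map_sub, map_mul, aeval_X, map_one, sub_eq_zero] at hB
  have h2 : P.Reg (aeval f B) := reg_aeval0 P (fun j => Or.inr (hf j)) B
  have h3 : aeval f B ≠ 0 := left_ne_zero_of_mul (by rw [hB]; exact one_ne_zero)
  have h4 : f i ≠ 0 := right_ne_zero_of_mul (by rw [hB]; exact one_ne_zero)
  have h5 := congrArg P.ord hB
  rw [P.ord_mul h3 h4, P.ord_one] at h5
  have h6 := (P.reg_iff h3).1 h2
  have h7 := hf i
  exact ⟨h4, by omega⟩

end Pool.Agent.N754.LG
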