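import Mathlib
import Pool.Agent.N754.LG.TF
import Pool.Agent.N754.LG.Stm2
import Pool.Agent.N603.LG.RA2
import Pool.Agent.N40.LG.RA
import Pool.Agent.N130.LG.LF
import Pool.Agent.N130.LG.CO
import Pool.Agent.N130.LG.LC
import Pool.Agent.N273.LG.ST
import Pool.Agent.N543.LG.FP
import Pool.Agent.N543.LG.AUT
import Pool.Agent.N717.FV.WR
import Pool.Agent.N342.FV.EMB
import Pool.Agent.N624.FV.SPE
import Pool.Agent.N832.FV.SPL
import Pool.Agent.N618.FV.PTU
import Pool.Agent.N87.FV.RC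
import Pool.Agent.N87.FV.LH
import Pool.Agent.N87.FV.GZ

/-!
The theorems without auxiliary hypotheses.
-/

set_option autoImplicit false
set_option linter.unusedSectionVars false
set_option linter.overlappingInstances false

open MvPolynomial FF Pool.Agent.W603.LV Filter

namespace Pool.Agent.N754.LG

open Pool.Agent.H159R3.Exp (Laur)
open Pool.Agent.N754.FV
open Pool.Agent.W602.GT (Divisorial DerReg DerLog LogGeneralType)

theorem wr : WR := Pool.Agent.N717.FV.wr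
theorem emb : EMB := Pool.Agent.N342.FV.emb
theorem sp2 : SP2 := Pool.Agent.N624.FV.sp2
theorem spl : SPL := Pool.Agent.N832.FV.spl Pool.Agent.N624.FV.spe
theorem ptu : PTU := Pool.Agent.N618.FV.ptu
theorem rc : RC := Pool.Agent.N87.FV.rc
theorem lh : LH := Pool.Agent.N87.FV.lh
theorem gz : GZ := Pool.Agent.N87.FV.gz
theorem aut : AUT := Pool.Agent.N543.LG.aut

/-- Varieties with function field generated by units, not of logarithmic general type. -/
theorem conv' {k K : Type} [Field k] [Field K] [Algebra k K] [CharZero k] {w n : ℕ}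
    (hw : Algebra.trdeg k K = w) (y : Fin n → K) (U : Finset (Fin n)) (hU0 : ∀ i ∈ U, y i ≠ 0)
    (hU : ∀ P : Place k K, (∀ j, 0 ≤ P.ord (y j)) → ∀ i ∈ U, P.ord (y i) = 0)
    (hgen : IntermediateField.adjoin k (y '' (U : Set (Fin n))) = ⊤)
    (hnot : ¬ LogGeneralType k K w fun P => ∃ j, P.ord (y j) < 0) :
    ∃ v : K → Fin n → K, (∀ j, Laur fun t => v t j) ∧ v 1 = y ∧
      (∀ Q : MvPolynomial (Fin n) k, aeval y Q = 0 → ∀ t, t ≠ 0 → aeval (v t) Q = 0) ∧
      ∃ j, v 2 j ≠ v 1 j :=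
  conv Pool.Agent.N603.LG.du Pool.Agent.N40.LG.ra1 Pool.Agent.N603.LG.ra2 Pool.Agent.N40.LG.ra3
    Pool.Agent.N130.LG.lf Pool.Agent.N273.LG.st (Pool.Agent.N543.LG.fp Pool.Agent.N130.LG.co)
    Pool.Agent.N130.LG.lc hw y U hU0 hU hgen hnot

/-- Laurent curves through general points, if the variety is not of log general type. -/
theorem laurent_of_not' {F : Type} [Field F] [CharZero F] {n : ℕ}
    {U : Finset (Fin n)} {p : Ideal (MvPolynomial (Fin n) F)} {H : MvPolynomial (Fin n) F}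
    (hG : Gen p U H) {K : Type} [Field K] [Algebra F K] (y : Fin n → K)
    (hy : ∀ Q, aeval y Q = 0 ↔ Q ∈ p)
    (hgen : IntermediateField.adjoin F (y '' (U : Set (Fin n))) = ⊤) (hL : ¬ LogGT p)
    (Ω : Type) [Field Ω] [Algebra F Ω] [IsAlgClosed Ω] (H' : MvPolynomial (Fin n) F)
    (hH' : H' ∉ p) : ∃ v : Ω → Fin n → Ω, (∀ j, Laur fun t => v t j) ∧
      (∀ Q ∈ p, ∀ s, s ≠ 0 → aeval (v s) Q = 0) ∧ (∃ j, v 2 j ≠ v 1 j) ∧ aeval (v 1) H' ≠ 0 :=
  laurent_of_not spl Pool.Agent.N603.LG.du Pool.Agent.N40.LG.ra1 Pool.Agent.N603.LG.ra2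
    Pool.Agent.N40.LG.ra3 Pool.Agent.N130.LG.lf Pool.Agent.N273.LG.st
    (Pool.Agent.N543.LG.fp Pool.Agent.N130.LG.co) Pool.Agent.N130.LG.lc hG y hy hgen hL Ω H' hH'

end Pool.Agent.N754.LG
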